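import Pool.Agent.H487R3.Cau.Stmts

set_option autoImplicit false

open Finset

namespace Pool.Agent.H91R3.CauBessel

open Pool.Agent.H487R3.Cau

/-- the local Bellman inequality, in terms of midpoints and half differences -/
theorem local_ineq (g x b y : ℂ) (hl : ‖b + y - 1‖ ≤ 1 / 10) (hr : ‖b - y - 1‖ ≤ 1 / 10) :
    ‖g‖ ^ 2 * (1 + ‖b - 1‖ ^ 2) + (1 / 20) * ‖(g + x) / (b + y) - (g - x) / (b - y)‖ ^ 2 ≤
      (‖g + x‖ ^ 2 * (1 + ‖b + y - 1‖ ^ 2) + ‖g - x‖ ^ 2 * (1 + ‖b - y - 1‖ ^ 2)) / 2 := by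
  have hb : ‖b - 1‖ ≤ 1 / 10 := by
    have e : b - 1 = (1 / 2 : ℂ) * ((b + y - 1) + (b - y - 1)) := by ring
    rw [e, norm_mul]
    have h1 := norm_add_le (b + y - 1) (b - y - 1)
    have h2 : ‖(1 / 2 : ℂ)‖ = 1 / 2 := by norm_num
    rw [h2]
    linarith
  have hbl : 9 / 10 ≤ ‖b + y‖ := by
    have h1 := norm_sub_norm_le (1 : ℂ) (1 - (b + y))
    have e : (1 : ℂ) - (1 - (b + y)) = b + y := by ring
    rw [e, norm_one] at h1
    have h2 : ‖1 - (b + y)‖ = ‖b + y - 1‖ := norm_sub_rev _ _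
    linarith
  have hbr : 9 / 10 ≤ ‖b - y‖ := by
    have h1 := norm_sub_norm_le (1 : ℂ) (1 - (b - y))
    have e : (1 : ℂ) - (1 - (b - y)) = b - y := by ring
    rw [e, norm_one] at h1
    have h2 : ‖1 - (b - y)‖ = ‖b - y - 1‖ := norm_sub_rev _ _
    linarith
  have hbn : ‖b‖ ≤ 11 / 10 := by
    have h1 := norm_add_le (b - 1) 1
    rw [sub_add_cancel, norm_one] at h1
    linarith
  have hbl0 : b + y ≠ 0 := by
    intro h; rw [h, norm_zero] at hbl; norm_num at hbl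
  have hbr0 : b - y ≠ 0 := by
    intro h; rw [h, norm_zero] at hbr; norm_num at hbr
  -- the difference of quotients
  have hq : ‖(g + x) / (b + y) - (g - x) / (b - y)‖ ≤ 2 * (11 / 10 * ‖x‖ + ‖g‖ * ‖y‖) / (81 / 100) := by
    have e : (g + x) / (b + y) - (g - x) / (b - y) = 2 * (x * b - g * y) / ((b + y) * (b - y)) := by
      field_simp
      ring
    rw [e, norm_div, norm_mul, norm_mul]
    have h1 : ‖x * b - g * y‖ ≤ 11 / 10 * ‖x‖ + ‖g‖ * ‖y‖ := by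
      calc ‖x * b - g * y‖ ≤ ‖x * b‖ + ‖g * y‖ := norm_sub_le _ _
        _ = ‖x‖ * ‖b‖ + ‖g‖ * ‖y‖ := by rw [norm_mul, norm_mul]
        _ ≤ _ := by nlinarith [norm_nonneg x]
    have h2 : 81 / 100 ≤ ‖b + y‖ * ‖b - y‖ := by nlinarith [norm_nonneg (b + y)]
    have h3 : ‖(2 : ℂ)‖ = 2 := by norm_num
    rw [h3]
    apply div_le_div₀ (by positivity) (by linarith) (by norm_num) h2
  have hq2 : ‖(g + x) / (b + y) - (g - x) / (b - y)‖ ^ 2 ≤ 15 * (‖x‖ ^ 2 + (‖g‖ * ‖y‖) ^ 2) := by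
    have h0 := norm_nonneg ((g + x) / (b + y) - (g - x) / (b - y))
    have hx := norm_nonneg x
    have hgy : 0 ≤ ‖g‖ * ‖y‖ := by positivity
    calc ‖(g + x) / (b + y) - (g - x) / (b - y)‖ ^ 2 ≤
          (2 * (11 / 10 * ‖x‖ + ‖g‖ * ‖y‖) / (81 / 100)) ^ 2 := by gcongr
      _ ≤ 15 * (‖x‖ ^ 2 + (‖g‖ * ‖y‖) ^ 2) := by
        nlinarith [sq_nonneg (‖x‖ - ‖g‖ * ‖y‖), sq_nonneg (‖x‖), sq_nonneg (‖g‖ * ‖y‖)]
  -- parallelogram data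
  have hg1 : ‖g + x‖ ^ 2 = ‖g‖ ^ 2 + ‖x‖ ^ 2 + 2 * (g * (starRingEnd ℂ) x).re := by
    rw [Complex.sq_norm, Complex.sq_norm, Complex.sq_norm, Complex.normSq_add]
  have hg2 : ‖g - x‖ ^ 2 = ‖g‖ ^ 2 + ‖x‖ ^ 2 - 2 * (g * (starRingEnd ℂ) x).re := by
    rw [Complex.sq_norm, Complex.sq_norm, Complex.sq_norm, Complex.normSq_sub]
  have hb1 : ‖b + y - 1‖ ^ 2 = ‖b - 1‖ ^ 2 + ‖y‖ ^ 2 + 2 * ((b - 1) * (starRingEnd ℂ) y).re := by
    have e : b + y - 1 = (b - 1) + y := by ring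
    rw [e, Complex.sq_norm, Complex.sq_norm, Complex.sq_norm, Complex.normSq_add]
  have hb2 : ‖b - y - 1‖ ^ 2 = ‖b - 1‖ ^ 2 + ‖y‖ ^ 2 - 2 * ((b - 1) * (starRingEnd ℂ) y).re := by
    have e : b - y - 1 = (b - 1) - y := by ring
    rw [e, Complex.sq_norm, Complex.sq_norm, Complex.sq_norm, Complex.normSq_sub]
  set R := (g * (starRingEnd ℂ) x).re with hR
  set Q := ((b - 1) * (starRingEnd ℂ) y).re with hQ
  have hRa : |R| ≤ ‖g‖ * ‖x‖ := by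
    calc |R| ≤ ‖g * (starRingEnd ℂ) x‖ := Complex.abs_re_le_norm _
      _ = ‖g‖ * ‖x‖ := by rw [norm_mul, Complex.norm_conj]
  have hQa : |Q| ≤ 1 / 10 * ‖y‖ := by
    calc |Q| ≤ ‖(b - 1) * (starRingEnd ℂ) y‖ := Complex.abs_re_le_norm _
      _ = ‖b - 1‖ * ‖y‖ := by rw [norm_mul, Complex.norm_conj]
      _ ≤ 1 / 10 * ‖y‖ := by gcongr
  have hRQ : -(‖g‖ * ‖x‖ * (1 / 10 * ‖y‖)) ≤ R * Q := by
    have h1 : |R * Q| ≤ ‖g‖ * ‖x‖ * (1 / 10 * ‖y‖) := by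
      rw [abs_mul]
      exact mul_le_mul hRa hQa (abs_nonneg _) (by positivity)
    exact (abs_le.1 h1).1
  rw [hg1, hg2, hb1, hb2]
  have key : (((‖g‖ ^ 2 + ‖x‖ ^ 2 + 2 * R) * (1 + (‖b - 1‖ ^ 2 + ‖y‖ ^ 2 + 2 * Q)) +
      (‖g‖ ^ 2 + ‖x‖ ^ 2 - 2 * R) * (1 + (‖b - 1‖ ^ 2 + ‖y‖ ^ 2 - 2 * Q))) / 2) =
      ‖g‖ ^ 2 * (1 + ‖b - 1‖ ^ 2) + ‖x‖ ^ 2 + ‖x‖ ^ 2 * (‖b - 1‖ ^ 2 + ‖y‖ ^ 2) +
        (‖g‖ * ‖y‖) ^ 2 + 4 * (R * Q) := by ring
  rw [key]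
  have h5 : 0 ≤ ‖x‖ ^ 2 * (‖b - 1‖ ^ 2 + ‖y‖ ^ 2) := by positivity
  nlinarith [sq_nonneg (‖x‖ - ‖g‖ * ‖y‖)]

theorem sum_double (F : ℕ → ℝ) (n : ℕ) :
    ∑ i ∈ Finset.range (2 ^ (n + 1)), F i = ∑ i ∈ Finset.range (2 ^ n), (F (2 * i) + F (2 * i + 1)) := by
  have h : ∀ m, ∑ i ∈ Finset.range (2 * m), F i = ∑ i ∈ Finset.range m, (F (2 * i) + F (2 * i + 1)) := by
    intro m
    induction m with
    | zero => simp
    | succ m ih =>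
      rw [show 2 * (m + 1) = 2 * m + 1 + 1 by ring, Finset.sum_range_succ, Finset.sum_range_succ, ih,
        Finset.sum_range_succ]
      ring
  rw [← h, pow_succ, mul_comm]

theorem taskBessel : TaskBessel := by
  refine ⟨21, by norm_num, ?_⟩
  intro β S N hβ hβ1 hS
  -- normalised quantities
  let b : ℕ → ℕ → ℂ := fun n i => (2 : ℂ) ^ n * β n i
  let g : ℕ → ℕ → ℂ := fun n i => (2 : ℂ) ^ n * S n i
  have h2n : ∀ n : ℕ, ‖(2 : ℂ) ^ n‖ = (2 : ℝ) ^ n := by intro n; rw [norm_pow]; norm_num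
  have hb1 : ∀ n i, ‖b n i - 1‖ ≤ 1 / 10 := by
    intro n i
    have e : b n i - 1 = (2 : ℂ) ^ n * (β n i - ((2 : ℂ) ^ n)⁻¹) := by
      simp only [b]
      field_simp
    rw [e, norm_mul, h2n]
    have := hβ1 n i
    have h3 : (2 : ℝ) ^ n * ‖β n i - ((2 : ℂ) ^ n)⁻¹‖ ≤ 2 ^ n * (((2 : ℝ) ^ n)⁻¹ / 10) := by gcongr
    have h4 : (2 : ℝ) ^ n * (((2 : ℝ) ^ n)⁻¹ / 10) = 1 / 10 := by field_simp
    linarith
  let T : ℕ → ℕ → ℝ := fun n i => ((2 : ℝ) ^ n)⁻¹ * (‖g n i‖ ^ 2 * (1 + ‖b n i - 1‖ ^ 2))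
  have hstep : ∀ n i, n < N → T n i + (1 / 20) * (((2 : ℝ) ^ n)⁻¹ *
      ‖S (n + 1) (2 * i) / β (n + 1) (2 * i) -
          S (n + 1) (2 * i + 1) / β (n + 1) (2 * i + 1)‖ ^ 2) ≤ T (n + 1) (2 * i) + T (n + 1) (2 * i + 1) := by
    intro n i hn
    have eb : b n i = (b (n + 1) (2 * i) + b (n + 1) (2 * i + 1)) / 2 := by
      simp only [b]
      rw [hβ n i, pow_succ]
      ring
    have eg : g n i = (g (n + 1) (2 * i) + g (n + 1) (2 * i + 1)) / 2 := by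
      simp only [g]
      rw [hS n i hn, pow_succ]
      ring
    have hL := local_ineq (g n i) ((g (n + 1) (2 * i) - g (n + 1) (2 * i + 1)) / 2) (b n i)
      ((b (n + 1) (2 * i) - b (n + 1) (2 * i + 1)) / 2)
    have e1 : b n i + (b (n + 1) (2 * i) - b (n + 1) (2 * i + 1)) / 2 = b (n + 1) (2 * i) := by
      rw [eb]; ring
    have e2 : b n i - (b (n + 1) (2 * i) - b (n + 1) (2 * i + 1)) / 2 = b (n + 1) (2 * i + 1) := by
      rw [eb]; ring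
    have e3 : g n i + (g (n + 1) (2 * i) - g (n + 1) (2 * i + 1)) / 2 = g (n + 1) (2 * i) := by
      rw [eg]; ring
    have e4 : g n i - (g (n + 1) (2 * i) - g (n + 1) (2 * i + 1)) / 2 = g (n + 1) (2 * i + 1) := by
      rw [eg]; ring
    rw [e1, e2, e3, e4] at hL
    have hL' := hL (hb1 _ _) (hb1 _ _)
    have e5 : ∀ k, g (n + 1) k / b (n + 1) k = S (n + 1) k / β (n + 1) k := by
      intro k
      simp only [g, b]
      rw [mul_div_mul_left _ _ (pow_ne_zero _ (by norm_num))]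
    rw [e5, e5] at hL'
    simp only [T]
    have e6 : ((2 : ℝ) ^ (n + 1))⁻¹ = ((2 : ℝ) ^ n)⁻¹ / 2 := by
      rw [pow_succ]; field_simp
    rw [e6]
    have h2 : (0 : ℝ) < ((2 : ℝ) ^ n)⁻¹ := by positivity
    have h3 := mul_le_mul_of_nonneg_left hL' h2.le
    calc _ = ((2 : ℝ) ^ n)⁻¹ * (‖g n i‖ ^ 2 * (1 + ‖b n i - 1‖ ^ 2) + (1 / 20) *
        ‖S (n + 1) (2 * i) / β (n + 1) (2 * i) -
          S (n + 1) (2 * i + 1) / β (n + 1) (2 * i + 1)‖ ^ 2) := by ring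
      _ ≤ _ := h3
      _ = _ := by ring
  -- sum over a level
  have hlevel : ∀ n, n < N → ∑ i ∈ Finset.range (2 ^ n), T n i + (1 / 20) *
      ∑ i ∈ Finset.range (2 ^ n), (((2 : ℝ) ^ n)⁻¹ *
      ‖S (n + 1) (2 * i) / β (n + 1) (2 * i) -
          S (n + 1) (2 * i + 1) / β (n + 1) (2 * i + 1)‖ ^ 2) ≤ ∑ i ∈ Finset.range (2 ^ (n + 1)), T (n + 1) i := by
    intro n hn
    rw [sum_double, Finset.mul_sum, ← Finset.sum_add_distrib]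
    exact Finset.sum_le_sum (fun i _ => hstep n i hn)
  have htel : ∀ k, k ≤ N → (1 / 20) * ∑ n ∈ Finset.range k,
      ∑ i ∈ Finset.range (2 ^ n), (((2 : ℝ) ^ n)⁻¹ *
      ‖S (n + 1) (2 * i) / β (n + 1) (2 * i) -
          S (n + 1) (2 * i + 1) / β (n + 1) (2 * i + 1)‖ ^ 2) ≤ ∑ i ∈ Finset.range (2 ^ k), T k i := by
    intro k
    induction k with
    | zero =>
      intro _
      simp only [Finset.range_zero, Finset.sum_empty, mul_zero]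
      apply Finset.sum_nonneg
      intro i _
      positivity
    | succ k ih =>
      intro hk
      have h1 := ih (by omega)
      have h2 := hlevel k (by omega)
      rw [Finset.sum_range_succ, mul_add]
      linarith
  have hfin : ∑ i ∈ Finset.range (2 ^ N), T N i ≤ (101 / 100) * ∑ i ∈ Finset.range (2 ^ N), (2 : ℝ) ^ N * ‖S N i‖ ^ 2 := by
    rw [Finset.mul_sum]
    apply Finset.sum_le_sum
    intro i _
    simp only [T]
    have h1 := hb1 N i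
    have h2 : ‖b N i - 1‖ ^ 2 ≤ 1 / 100 := by
      have := norm_nonneg (b N i - 1)
      nlinarith
    have h3 : ‖g N i‖ ^ 2 = (2 : ℝ) ^ N * ((2 : ℝ) ^ N * ‖S N i‖ ^ 2) := by
      simp only [g]
      rw [norm_mul, h2n]; ring
    rw [h3]
    have h4 : ((2 : ℝ) ^ N)⁻¹ * ((2 : ℝ) ^ N * ((2 : ℝ) ^ N * ‖S N i‖ ^ 2) * (1 + ‖b N i - 1‖ ^ 2)) =
        ((2 : ℝ) ^ N * ‖S N i‖ ^ 2) * (1 + ‖b N i - 1‖ ^ 2) := by
      field_simp
    rw [h4]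
    have h5 : 0 ≤ (2 : ℝ) ^ N * ‖S N i‖ ^ 2 := by positivity
    nlinarith
  have h6 := htel N le_rfl
  have h7 : 0 ≤ ∑ i ∈ Finset.range (2 ^ N), (2 : ℝ) ^ N * ‖S N i‖ ^ 2 := by
    apply Finset.sum_nonneg; intro i _; positivity
  linarith

end Pool.Agent.H91R3.CauBessel
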