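import Pool.Agent.H91R3.DCDefs

set_option autoImplicit false

namespace Pool.Agent.H91R3.DC

noncomputable section

/-- state of the last line: cells `l..r`, block `s..t` -/
@[ext] structure St where
  l : ℤ
  s : ℤ
  t : ℤ
  r : ℤ
deriving DecidableEq

def St.wf (σ : St) : Prop := σ.l ≤ σ.s ∧ σ.s ≤ σ.t ∧ σ.t ≤ σ.r

/-- the new run `l'..r'` is admissible after state `σ` -/
def ok (σ : St) (l' r' : ℤ) : Prop :=
  l' ≤ r' ∧ l' ≤ σ.t + 1 ∧ σ.s ≤ r' ∧ (σ.l < σ.s → l' ≤ σ.l + 1) ∧ (σ.t < σ.r → σ.r ≤ r')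

def next (σ : St) (l' r' : ℤ) : St := ⟨l', max l' σ.l, min r' (σ.r + 1), r'⟩

def initSt (r : ℤ) : St := ⟨0, 0, 0, r⟩

/-- admissible histories, last line first -/
inductive Good : List St → Prop
  | init (r : ℤ) (h : 0 ≤ r) : Good [initSt r]
  | step (σ : St) (L : List St) (l' r' : ℤ) (h : Good (σ :: L)) (hok : ok σ l' r') :
      Good (next σ l' r' :: σ :: L)

theorem next_wf {σ : St} {l' r' : ℤ} (hσ : σ.wf) (h : ok σ l' r') : (next σ l' r').wf := by
  obtain ⟨h1, h2, h3⟩ := hσ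
  obtain ⟨g1, g2, g3, g4, g5⟩ := h
  refine ⟨?_, ?_, ?_⟩
  · simp [next]
  · simp only [next, le_min_iff, max_le_iff]
    refine ⟨⟨g1, by omega⟩, ⟨by omega, by omega⟩⟩
  · simp [next]

theorem Good.wf {σ : St} {L : List St} (h : Good (σ :: L)) : σ.wf := by
  generalize hM : σ :: L = M at h
  induction h generalizing σ L with
  | init r hr =>
    simp only [List.cons.injEq] at hM
    obtain ⟨rfl, rfl⟩ := hM
    simp [St.wf, initSt, hr]
  | step τ K l' r' h hok ih =>
    simp only [List.cons.injEq] at hM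
    obtain ⟨rfl, rfl⟩ := hM
    exact next_wf (ih rfl) hok

/-- cells on line `k` with abscissa `l..r` -/
def line (k : ℤ) (l r : ℤ) : Finset (ℤ × ℤ) := (Finset.Icc l r).image (fun x => (x, k - x))

theorem mem_line {k l r : ℤ} {p : ℤ × ℤ} : p ∈ line k l r ↔ p.1 + p.2 = k ∧ l ≤ p.1 ∧ p.1 ≤ r := by
  simp only [line, Finset.mem_image, Finset.mem_Icc]
  constructor
  · rintro ⟨x, ⟨h1, h2⟩, rfl⟩
    exact ⟨by simp, h1, h2⟩
  · rintro ⟨h1, h2, h3⟩
    exact ⟨p.1, ⟨h2, h3⟩, by ext <;> simp; omega⟩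

theorem line_card (k l r : ℤ) : (line k l r).card = (r + 1 - l).toNat := by
  rw [line, Finset.card_image_of_injective, Int.card_Icc]
  intro x y h
  simpa using congrArg Prod.fst h

/-- all cells of a history -/
def cells : List St → Finset (ℤ × ℤ)
  | [] => ∅
  | σ :: L => line L.length σ.l σ.r ∪ cells L

theorem cells_line {L : List St} {p : ℤ × ℤ} (h : p ∈ cells L) :
    0 ≤ p.1 + p.2 ∧ p.1 + p.2 < L.length := by
  induction L with
  | nil => simp [cells] at h
  | cons σ L ih =>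
    simp only [cells, Finset.mem_union, mem_line] at h
    simp only [List.length_cons]
    push_cast
    rcases h with h | h
    · omega
    · have := ih h
      omega

def area : List St → ℕ
  | [] => 0
  | σ :: L => (σ.r + 1 - σ.l).toNat + area L

theorem cells_card (L : List St) : (cells L).card = area L := by
  induction L with
  | nil => simp [cells, area]
  | cons σ L ih =>
    rw [cells, Finset.card_union_of_disjoint, line_card, ih, area]
    rw [Finset.disjoint_left]
    intro p hp hq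
    have := cells_line hq
    rw [mem_line] at hp
    omega

theorem adj_iff (p q : ℤ × ℤ) : Adj p q ↔
    (p.1 = q.1 ∧ (p.2 = q.2 + 1 ∨ q.2 = p.2 + 1)) ∨ (p.2 = q.2 ∧ (p.1 = q.1 + 1 ∨ q.1 = p.1 + 1)) := by
  unfold Adj
  constructor
  · intro h
    rcases abs_cases (p.1 - q.1) with h1 | h1 <;> rcases abs_cases (p.2 - q.2) with h2 | h2 <;> omega
  · intro h
    rcases abs_cases (p.1 - q.1) with h1 | h1 <;> rcases abs_cases (p.2 - q.2) with h2 | h2 <;> omega

theorem Adj.symm' {p q : ℤ × ℤ} (h : Adj p q) : Adj q p := by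
  rw [adj_iff] at h ⊢; omega

theorem Conn.symm' {A : Finset (ℤ × ℤ)} {p q : ℤ × ℤ} (h : Conn A p q) : Conn A q p := by
  unfold Conn at *
  induction h with
  | refl => exact Relation.ReflTransGen.refl
  | tail _ h2 ih =>
    exact (Relation.ReflTransGen.single ⟨h2.2.1, h2.1, h2.2.2.symm'⟩).trans ih

theorem Conn.trans' {A : Finset (ℤ × ℤ)} {p q r : ℤ × ℤ} (h : Conn A p q) (h2 : Conn A q r) :
    Conn A p r := Relation.ReflTransGen.trans h h2

theorem Conn.mono {A B : Finset (ℤ × ℤ)} (hAB : A ⊆ B) {p q : ℤ × ℤ} (h : Conn A p q) :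
    Conn B p q := by
  unfold Conn at *
  exact Relation.ReflTransGen.mono (fun u v (h : u ∈ A ∧ v ∈ A ∧ Adj u v) =>
    ⟨hAB h.1, hAB h.2.1, h.2.2⟩) p q h

theorem Conn.step {A : Finset (ℤ × ℤ)} {p q : ℤ × ℤ} (hp : p ∈ A) (hq : q ∈ A) (h : Adj p q) :
    Conn A p q := Relation.ReflTransGen.single ⟨hp, hq, h⟩

theorem Conn.rfl' {A : Finset (ℤ × ℤ)} {p : ℤ × ℤ} : Conn A p p := Relation.ReflTransGen.refl

/-- closed sets -/
theorem Conn.closed {A : Finset (ℤ × ℤ)} {P : ℤ × ℤ → Prop}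
    (hP : ∀ u ∈ A, ∀ v ∈ A, Adj u v → P u → P v) {p q : ℤ × ℤ} (h : Conn A p q) (hp : P p) : P q := by
  unfold Conn at h
  induction h with
  | refl => exact hp
  | tail _ h2 ih => exact hP _ h2.1 _ h2.2.1 h2.2.2 ih

theorem Conn.exists_adj {A : Finset (ℤ × ℤ)} {p q : ℤ × ℤ} (h : Conn A p q) (hne : p ≠ q) :
    ∃ v ∈ A, Adj p v := by
  unfold Conn at h
  rcases Relation.ReflTransGen.cases_head h with h | ⟨c, h1, _⟩
  · exact absurd h hne
  · exact ⟨c, h1.2.1, h1.2.2⟩

/-- the invariant -/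
structure Inv (σ : St) (L : List St) : Prop where
  wf : σ.wf
  i1 : ∀ p ∈ cells (σ :: L), ∃ x, σ.l ≤ x ∧ x ≤ σ.r ∧ Conn (cells (σ :: L)) p (x, L.length - x)
  i2 : ∀ x x', σ.s ≤ x → x ≤ σ.t → σ.s ≤ x' → x' ≤ σ.t →
    Conn (cells (σ :: L)) (x, L.length - x) (x', L.length - x')
  i3 : ∀ x, σ.l ≤ x → x ≤ σ.r → (x < σ.s ∨ σ.t < x) → ∀ p ∈ cells (σ :: L),
    ¬ Adj (x, L.length - x) p

/-- touch conditions -/
theorem ok_of_touch {σ : St} (h : σ.wf) {l' r' : ℤ} (hlr : l' ≤ r')
    (h1 : ∀ x, σ.l ≤ x → x ≤ σ.r → (x < σ.s ∨ σ.t < x) → l' ≤ x + 1 ∧ x ≤ r')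
    (h2 : l' ≤ σ.t + 1 ∧ σ.s ≤ r') : ok σ l' r' := by
  obtain ⟨a1, a2, a3⟩ := h
  refine ⟨hlr, h2.1, h2.2, fun h => ?_, fun h => ?_⟩
  · exact (h1 σ.l le_rfl (by omega) (by omega)).1
  · exact (h1 σ.r (by omega) le_rfl (by omega)).2

theorem touch_of_ok {σ : St} (h : σ.wf) {l' r' : ℤ} (hok : ok σ l' r') (x : ℤ) (hx1 : σ.l ≤ x)
    (hx2 : x ≤ σ.r) (hx : x < σ.s ∨ σ.t < x) : l' ≤ x + 1 ∧ x ≤ r' := by
  obtain ⟨a1, a2, a3⟩ := h
  obtain ⟨g1, g2, g3, g4, g5⟩ := hok
  constructor
  · rcases hx with hx | hx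
    · have := g4 (by omega); omega
    · omega
  · rcases hx with hx | hx
    · omega
    · have := g5 (by omega); omega

theorem inv_init (r : ℤ) (h : 0 ≤ r) : Inv (initSt r) [] := by
  have hc : cells [initSt r] = line 0 0 r := by simp [cells, initSt]
  refine ⟨by simp [St.wf, initSt, h], ?_, ?_, ?_⟩
  · intro p hp
    rw [hc] at hp ⊢
    rw [mem_line] at hp
    refine ⟨p.1, hp.2.1, hp.2.2, ?_⟩
    have : ((p.1, ((List.length ([] : List St) : ℕ) : ℤ) - p.1) : ℤ × ℤ) = p := by
      ext <;> simp; omega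
    rw [this]
    exact Conn.rfl'
  · intro x x' h1 h2 h3 h4
    simp only [initSt] at h1 h2 h3 h4
    have : x = x' := by omega
    subst this
    exact Conn.rfl'
  · intro x h1 h2 h3 p hp hadj
    rw [hc, mem_line] at hp
    rw [adj_iff] at hadj
    simp only [List.length_nil, Nat.cast_zero] at hadj
    omega

theorem inv_step {σ : St} {L : List St} (h : Inv σ L) {l' r' : ℤ} (hok : ok σ l' r') :
    Inv (next σ l' r') (σ :: L) := by
  have hwf := next_wf h.wf hok
  obtain ⟨a1, a2, a3⟩ := h.wf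
  have hok' := hok
  obtain ⟨g1, g2, g3, g4, g5⟩ := hok
  set A := cells (σ :: L) with hA
  set B := cells (next σ l' r' :: σ :: L) with hB
  have hAB : A ⊆ B := by
    rw [hB, cells]
    exact Finset.subset_union_right
  have hlen : (((σ :: L).length : ℕ) : ℤ) = L.length + 1 := by simp
  have memB : ∀ p, p ∈ B ↔ (p.1 + p.2 = (L.length : ℤ) + 1 ∧ l' ≤ p.1 ∧ p.1 ≤ r') ∨ p ∈ A := by
    intro p
    rw [hB, cells, Finset.mem_union, mem_line, hlen]
    rfl
  have memA : ∀ x, σ.l ≤ x → x ≤ σ.r → ((x, (L.length : ℤ) - x) : ℤ × ℤ) ∈ A := by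
    intro x h1 h2
    rw [hA, cells, Finset.mem_union, mem_line]
    left
    exact ⟨by simp, h1, h2⟩
  -- old last-line cell to new cell
  have up0 : ∀ x, σ.l ≤ x → x ≤ σ.r → l' ≤ x → x ≤ r' →
      Conn B (x, (L.length : ℤ) - x) (x, (L.length : ℤ) + 1 - x) := by
    intro x h1 h2 h3 h4
    refine Conn.step (hAB (memA x h1 h2)) ?_ ?_
    · rw [memB]; left; exact ⟨by simp, h3, h4⟩
    · rw [adj_iff]; left; simp; omega
  have up1 : ∀ x, σ.l ≤ x → x ≤ σ.r → l' ≤ x + 1 → x + 1 ≤ r' →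
      Conn B (x, (L.length : ℤ) - x) (x + 1, (L.length : ℤ) + 1 - (x + 1)) := by
    intro x h1 h2 h3 h4
    refine Conn.step (hAB (memA x h1 h2)) ?_ ?_
    · rw [memB]; left; exact ⟨by ring, h3, h4⟩
    · rw [adj_iff]; right; constructor
      · ring
      · right; rfl
  have up : ∀ x, σ.l ≤ x → x ≤ σ.r → ∃ x', l' ≤ x' ∧ x' ≤ r' ∧
      Conn B (x, (L.length : ℤ) - x) (x', (L.length : ℤ) + 1 - x') := by
    intro x h1 h2
    by_cases hx : x < σ.s ∨ σ.t < x
    · have := touch_of_ok h.wf hok' x h1 h2 hx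
      by_cases hx' : l' ≤ x
      · exact ⟨x, hx', this.2, up0 x h1 h2 hx' this.2⟩
      · exact ⟨x + 1, this.1, by omega, up1 x h1 h2 this.1 (by omega)⟩
    · -- block: choose touched element
      push Not at hx
      -- y in [s,t] with y or y+1 in [l', r']
      by_cases hy : l' ≤ σ.t
      · -- y = max l' s
        refine ⟨max l' σ.s, le_max_left _ _, by simp [g1, g3], ?_⟩
        refine Conn.trans' (Conn.mono hAB (h.i2 x (max l' σ.s) hx.1 hx.2 (le_max_right _ _)
          (by simp [hy, a2]))) ?_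
        have e1 := le_max_right l' σ.s
        have e2 : max l' σ.s ≤ σ.t := by simp [hy, a2]
        exact up0 _ (by omega) (by omega) (le_max_left _ _) (by simp [g1, g3])
      · -- y = t, l' = t+1
        refine ⟨σ.t + 1, by omega, by omega, ?_⟩
        refine Conn.trans' (Conn.mono hAB (h.i2 x σ.t hx.1 hx.2 a2 le_rfl)) ?_
        exact up1 _ (by omega) (by omega) (by omega) (by omega)
  -- consecutive new cells in the block
  have cons : ∀ x, l' ≤ x → x + 1 ≤ r' → σ.l ≤ x → x ≤ σ.r →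
      Conn B (x, (L.length : ℤ) + 1 - x) (x + 1, (L.length : ℤ) + 1 - (x + 1)) := by
    intro x h1 h2 h3 h4
    exact (up0 x h3 h4 h1 (by omega)).symm'.trans' (up1 x h3 h4 (by omega) h2)
  refine ⟨hwf, ?_, ?_, ?_⟩
  · intro p hp
    rw [← hB] at hp ⊢
    rw [hlen]
    rw [memB] at hp
    rcases hp with hp | hp
    · refine ⟨p.1, hp.2.1, hp.2.2, ?_⟩
      have : ((p.1, (L.length : ℤ) + 1 - p.1) : ℤ × ℤ) = p := by
        ext <;> simp; omega
      rw [this]
      exact Conn.rfl'
    · obtain ⟨x, hx1, hx2, hx3⟩ := h.i1 p hp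
      obtain ⟨x', h1, h2, h3⟩ := up x hx1 hx2
      exact ⟨x', h1, h2, (Conn.mono hAB hx3).trans' h3⟩
  · rw [← hB, hlen]
    -- monotone chain
    have key : ∀ (n : ℕ) (x : ℤ), max l' σ.l ≤ x → x + n ≤ min r' (σ.r + 1) →
        Conn B (x, (L.length : ℤ) + 1 - x) (x + n, (L.length : ℤ) + 1 - (x + n)) := by
      intro n
      induction n with
      | zero => intro x _ _; simp only [Nat.cast_zero, add_zero]; exact Conn.rfl'
      | succ n ih =>
        intro x h1 h2
        push_cast at h2 ⊢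
        simp only [max_le_iff, le_min_iff] at h1 h2
        have := ih x (by simp only [max_le_iff]; exact h1) (by simp only [le_min_iff]; omega)
        refine this.trans' ?_
        rw [← add_assoc]
        exact cons (x + n) (by omega) (by omega) (by omega) (by omega)
    intro x x' h1 h2 h3 h4
    simp only [next] at h1 h2 h3 h4
    rcases le_total x x' with hxx | hxx
    · have := key (x' - x).toNat x h1 (by rw [Int.toNat_of_nonneg (by omega)]; omega)
      rw [Int.toNat_of_nonneg (by omega)] at this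
      simpa using this
    · have := key (x - x').toNat x' h3 (by rw [Int.toNat_of_nonneg (by omega)]; omega)
      rw [Int.toNat_of_nonneg (by omega)] at this
      have h := this.symm'
      simpa using h
  · intro x h1 h2 h3 p hp hadj
    rw [← hB, memB] at hp
    rw [hlen, adj_iff] at hadj
    simp only [next] at h1 h2 h3
    simp only at hadj
    have hx : x < σ.l ∨ σ.r + 1 < x := by
      rcases h3 with h3 | h3
      · left
        rcases lt_max_iff.1 h3 with h | h
        · omega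
        · exact h
      · right
        rcases min_lt_iff.1 h3 with h | h
        · omega
        · exact h
    rcases hp with hp | hp
    · omega
    · -- p in A
      rw [hA, cells, Finset.mem_union, mem_line] at hp
      rcases hp with hp | hp
      · omega
      · have := cells_line hp
        omega

theorem inv_of_good {σ : St} {L : List St} (h : Good (σ :: L)) : Inv σ L := by
  generalize hM : σ :: L = M at h
  induction h generalizing σ L with
  | init r hr =>
    simp only [List.cons.injEq] at hM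
    obtain ⟨rfl, rfl⟩ := hM
    exact inv_init r hr
  | step τ K l' r' h hok ih =>
    simp only [List.cons.injEq] at hM
    obtain ⟨rfl, rfl⟩ := hM
    exact inv_step (ih rfl) hok

end

end Pool.Agent.H91R3.DC
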