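import Pool.Agent.H91R3.DC9

set_option autoImplicit false

namespace Pool.Agent.H91R3.DC

noncomputable section

open PowerSeries Finset

theorem shift_sum (f : ℕ → ℤ) (n : ℕ) (h : f 1 = 0) :
    ∑ M ∈ Icc 1 (n + 1), f M = ∑ M ∈ Icc 1 n, f (M + 1) := by
  have h1 : Icc 1 (n + 1) = insert 1 ((Icc 1 n).image (fun k => k + 1)) := by
    ext M
    simp only [mem_Icc, mem_insert, mem_image]
    constructor
    · intro h
      by_cases hM : M = 1
      · left; exact hM
      · right; exact ⟨M - 1, by omega, by omega⟩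
    · rintro (h | ⟨k, hk, rfl⟩) <;> omega
  rw [h1, Finset.sum_insert, h, zero_add, Finset.sum_image (by intro a _ b _ h; simpa using h)]
  simp only [mem_image, mem_Icc, not_exists, not_and]
  intro x hx
  omega

theorem cf_T (T : ℕ → ℕ → ℤ) (n β : ℕ) :
    cf n (β + 1) (yy * (geo 1 * C (datq (PP T))) -
      yy * (geo 1 * (geo 1 * (C (atq (PP T)) - sq (PP T))))) =
    ∑ M ∈ Icc 1 n, ((M - (β + 1) : ℕ) : ℤ) * T (n - M) M := by
  rw [cf_sub, cf_y_succ, cf_y_succ, cf_H, cf_H]
  simp only [cf_H, cf_sub, cf_C, cf_sq, coeff_atq, coeff_datq, cf_PP]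
  rw [Finset.sum_ite_eq' , if_pos (by simp)]
  have h1 : ∀ i ∈ range (β + 1), ∑ x ∈ range (i + 1),
      ((if x = 0 then ∑ k ∈ range (n + 1), T (n - k) k else 0) - if x ≤ n then T (n - x) x else 0) =
      (∑ k ∈ range (n + 1), T (n - k) k) - ∑ x ∈ range (i + 1), if x ≤ n then T (n - x) x else 0 := by
    intro i _
    rw [Finset.sum_sub_distrib, Finset.sum_ite_eq', if_pos (by simp)]
  rw [Finset.sum_congr rfl h1, Finset.sum_sub_distrib,
    ← diag (fun x => if x ≤ n then T (n - x) x else 0)]
  rw [Finset.sum_const, card_range]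
  have h2 : ∑ b ∈ range (β + 2), ((β + 1 - b : ℕ) : ℤ) * (if b ≤ n then T (n - b) b else 0) =
      ∑ b ∈ range (n + 1), ((β + 1 - b : ℕ) : ℤ) * T (n - b) b := by
    have h3 : ∀ b ∈ range (β + 2), ((β + 1 - b : ℕ) : ℤ) * (if b ≤ n then T (n - b) b else 0) =
        if b ≤ n then ((β + 1 - b : ℕ) : ℤ) * T (n - b) b else 0 := by
      intro b _; split_ifs <;> simp
    have h4 : ∀ b ∈ range (n + 1), ((β + 1 - b : ℕ) : ℤ) * T (n - b) b =
        if b ≤ β + 1 then ((β + 1 - b : ℕ) : ℤ) * T (n - b) b else 0 := by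
      intro b _
      split_ifs with h
      · rfl
      · rw [show β + 1 - b = 0 by omega]; simp
    rw [Finset.sum_congr rfl h3, Finset.sum_congr rfl h4, ← Finset.sum_filter, ← Finset.sum_filter]
    apply Finset.sum_congr
    · ext b; simp only [mem_filter, mem_range]; omega
    · intro b _; rfl
  rw [h2]
  have h5 : ∑ M ∈ Icc 1 n, ((M - (β + 1) : ℕ) : ℤ) * T (n - M) M =
      ∑ b ∈ range (n + 1), ((b - (β + 1) : ℕ) : ℤ) * T (n - b) b := by
    rw [Finset.sum_range_succ', show ((0 - (β + 1) : ℕ) : ℤ) * T (n - 0) 0 = 0 by simp, add_zero]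
    rw [show Icc 1 n = (range n).image (fun k => k + 1) by
      ext M
      simp only [mem_Icc, mem_image, mem_range]
      constructor
      · intro h; exact ⟨M - 1, by omega, by omega⟩
      · rintro ⟨k, hk, rfl⟩; omega]
    rw [Finset.sum_image (by intro a _ b _ h; simpa using h)]
  rw [h5, nsmul_eq_mul, Finset.mul_sum, sub_sub_eq_add_sub, ← Finset.sum_add_distrib,
    ← Finset.sum_sub_distrib]
  apply Finset.sum_congr rfl
  intro b _
  have : ((b - (β + 1) : ℕ) : ℤ) = (b : ℤ) + ((β + 1 - b : ℕ) : ℤ) - ((β + 1 : ℕ) : ℤ) := by omega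
  rw [this]
  ring

theorem E3 : PP AZ' = C qq * sq (yy * (geo 1 * (1 + geo 1 * PP AX))) +
    C qq * (yy * (geo 1 * (geo qq * C (atq (PP AX + PP AY)) - sq (geo 1 * (PP AX + PP AY))) +
      geo 1 * (geo qq * C (atq (PP AX + PP AW)) - sq (geo 1 * (PP AX + PP AW))))) +
    (yy * (geo 1 * C (datq (PP AX + PP AY + PP AW + PP AZ'))) -
      yy * (geo 1 * (geo 1 * (C (atq (PP AX + PP AY + PP AW + PP AZ')) -
        sq (PP AX + PP AY + PP AW + PP AZ'))))) := by
  rw [PP_add AX AY, PP_add AX AW, PP_add _ AW, PP_add _ AZ']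
  apply cf_ext
  intro n b
  cases b with
  | zero =>
    rw [cf_add, cf_add, cf_sub, cf_y_zero, cf_y_zero, cf_PP]
    cases n with
    | zero => rw [cf_q_zero, cf_q_zero]; simp [AZ']
    | succ n =>
      rw [cf_q_succ, cf_q_succ, cf_y_zero, cf_sq, if_pos (Nat.zero_le _), cf_y_zero]; simp [AZ']
  | succ β =>
    rw [cf_add, cf_T, cf_PP, show AZ' n (β + 1) = AZ n (β + 1) by unfold AZ'; rw [if_neg (by omega)],
      AZ_eq, EE_eq]
    cases n with
    | zero => simp [cf_add, cf_q_zero]
    | succ n =>
      rw [cf_add, cf_q_succ, cf_q_succ, cf_y_succ, cf_add, cf_block0, cf_block0, cf_sq, cf_y_succ,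
        cf_H]
      simp only [cf_add, cf_one, cf_H, cf_PP]
      rw [if_neg (by omega)]
      have hinit : oZ (β + 1) 0 1 (n + 1 - 1) = if n = β + 1 then 1 else 0 := by
        rw [show n + 1 - 1 = n by omega]
        by_cases hn : n = 0
        · subst hn
          rw [oZ_zz _ _ (by omega)]
          simp
        · rw [oZ_zp _ _ _ (by omega)]
          congr 1
          apply propext
          omega
      rw [hinit]
      have hR : ∀ M ∈ Icc 1 (n + 1), RR (oZ (β + 1)) M (n + 1 - M) =
          (∑ b ∈ range M, ind (M ≤ β + 1 + b ∧ β + 1 + 1 ≤ M) *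
            (AX (n + 1 - M) b + AY (n + 1 - M) b)) +
          (∑ b ∈ range M, ind (M ≤ β + 1 + b ∧ β + 1 + 1 ≤ M) *
            (AX (n + 1 - M) b + AW (n + 1 - M) b)) +
          (if β + 1 + 1 = M then
            ∑ b ∈ range (β + 1 + 1), ((β + 1 - b : ℕ) : ℤ) * AX (n - (β + 1)) b else 0) +
          ((M - (β + 1) : ℕ) : ℤ) * (AX (n + 1 - M) M + AY (n + 1 - M) M + AW (n + 1 - M) M +
            AZ' (n + 1 - M) M) := by
        intro M hM
        rw [mem_Icc] at hM
        rw [RR_oZ _ _ _ (by omega) (by omega)]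
        have hz : AZ' (n + 1 - M) M = AZ (n + 1 - M) M := by
          unfold AZ'; rw [if_neg (by omega)]
        rw [hz]
        congr 1
        have h3 : (if β + 1 + 1 = M then
            ∑ b ∈ range (β + 1 + 1), ((β + 1 - b : ℕ) : ℤ) * AX (n - (β + 1)) b else 0) =
            ∑ b ∈ range M, ((M - b - 1 : ℕ) : ℤ) * ind (β + 1 + 1 = M) * AX (n + 1 - M) b := by
          by_cases h : β + 1 + 1 = M
          · rw [if_pos h]
            subst h
            apply Finset.sum_congr rfl
            intro b hb
            rw [mem_range] at hb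
            unfold ind
            rw [if_pos rfl, mul_one, show β + 1 + 1 - b - 1 = β + 1 - b by omega,
              show n + 1 - (β + 1 + 1) = n - (β + 1) by omega]
          · rw [if_neg h]
            symm
            apply Finset.sum_eq_zero
            intro b _
            unfold ind
            rw [if_neg h]
            ring
        rw [h3, ← Finset.sum_add_distrib, ← Finset.sum_add_distrib]
        apply Finset.sum_congr rfl
        intro b _
        ring
      rw [Finset.sum_congr rfl hR, Finset.sum_add_distrib, Finset.sum_add_distrib,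
        Finset.sum_add_distrib, Finset.sum_ite_eq]
      have hs : ∀ F : ℕ → ℕ → ℤ, ∑ M ∈ Icc 1 (n + 1), ∑ b ∈ range M,
          ind (M ≤ β + 1 + b ∧ β + 1 + 1 ≤ M) * F (n + 1 - M) b =
          ∑ M ∈ Icc 1 n, ∑ b ∈ range (M + 1), ind (M + 1 ≤ β + 1 + b ∧ β + 1 ≤ M) * F (n - M) b := by
        intro F
        rw [shift_sum]
        · apply Finset.sum_congr rfl
          intro M _
          apply Finset.sum_congr rfl
          intro b _
          rw [show n + 1 - (M + 1) = n - M by omega]
          congr 1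
          unfold ind
          congr 1
          apply propext
          omega
        · apply Finset.sum_eq_zero
          intro b _
          unfold ind
          rw [if_neg (by omega)]
          ring
      rw [hs (fun k b => AX k b + AY k b), hs (fun k b => AX k b + AW k b)]
      by_cases h : β + 1 ≤ n
      · rw [if_pos h, if_pos (by rw [mem_Icc]; omega : β + 1 + 1 ∈ Icc 1 (n + 1))]
        rw [show β + 1 + 1 = β + 2 from rfl, diag]
        have h4 : ∑ x ∈ range (β + 1), ((if x = 0 ∧ n - (β + 1) = 0 then (1 : ℤ) else 0) +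
            ∑ i ∈ range (x + 1), AX (n - (β + 1)) i) = (if n = β + 1 then 1 else 0) +
            ∑ i ∈ range (β + 1), ∑ b ∈ range (i + 1), AX (n - (β + 1)) b := by
          rw [Finset.sum_add_distrib]
          congr 1
          by_cases h5 : n = β + 1
          · subst h5; simp
          · rw [if_neg h5]
            apply Finset.sum_eq_zero
            intro x _
            rw [if_neg (by omega)]
        rw [h4]
        ring
      · rw [if_neg h, if_neg (by rw [mem_Icc]; omega : β + 1 + 1 ∉ Icc 1 (n + 1)),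
          if_neg (by omega)]
        ring

theorem RR_fin (M k : ℕ) : RR (fun a _ c => if a = 0 ∧ c = 0 then 1 else 0) M k =
    AX k M + AY k M + AW k M + AZ k M := by
  unfold RR
  simp only [and_true, true_and]
  rw [Finset.sum_range_succ]
  have h1 : ∑ x ∈ range M, ((∑ x_1 ∈ range (M - x + 1), if x_1 = 0 ∧ M - x - x_1 = 0 then (1 : ℤ)
      else 0) * AX k x + (if M - x = 0 then (1 : ℤ) else 0) * AY k x +
      (if M - x = 0 then (1 : ℤ) else 0) * AW k x) = 0 := by
    apply Finset.sum_eq_zero
    intro x hx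
    rw [mem_range] at hx
    rw [if_neg (by omega), Finset.sum_eq_zero]
    · ring
    · intro i _
      rw [if_neg (by omega)]
  rw [h1, Nat.sub_self]
  simp

theorem numDC_count (n : ℕ) : (numDC n : ℤ) =
    EE n (fun a _ c => if a = 0 ∧ c = 0 then 1 else 0) := by
  rw [numDC_eq]
  have h1 : {L : List St | Good L ∧ area L = n ∧ fin L} =
      ↑((LL n).filter (fun L => sa (hd L) = 0 ∧ sc (hd L) = 0)) := by
    ext L
    simp only [Set.mem_ofPred_eq, coe_filter, mem_LL]
    constructor
    · rintro ⟨hG, hA, hf⟩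
      refine ⟨⟨hG, hA⟩, ?_⟩
      match L, hG, hf with
      | σ :: K, hG, hf =>
        simp only [fin] at hf
        simp only [hd, List.headD_cons, sa, sc]
        omega
    · rintro ⟨⟨hG, hA⟩, hf⟩
      refine ⟨hG, hA, ?_⟩
      match L, hG, hf with
      | σ :: K, hG, hf =>
        obtain ⟨a1, a2, a3⟩ := hG.wf
        simp only [hd, List.headD_cons, sa, sc] at hf
        simp only [fin]
        omega
  rw [h1, Set.ncard_coe_finset, Finset.card_filter]
  unfold EE
  push_cast
  rfl

theorem numDC_atq : (PowerSeries.mk fun n => (numDC n : ℤ)) =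
    qq + atq (PP AX + PP AY + PP AW + PP AZ') := by
  ext n
  rw [PP_add, PP_add, PP_add, coeff_mk, map_add, coeff_atq, numDC_count, EE_eq]
  simp only [RR_fin, cf_PP]
  congr 1
  · unfold qq
    rw [PowerSeries.coeff_X]
    by_cases hn : n = 0
    · subst hn; simp
    · rw [if_neg hn]
      congr 1
      apply propext
      simp only [true_and]
      omega
  · rw [Finset.sum_range_succ']
    have e0 : AX (n - 0) 0 + AY (n - 0) 0 + AW (n - 0) 0 + AZ' (n - 0) 0 = 0 := by
      rw [AX_zero, AY_zero, AW_zero]; simp [AZ']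
    rw [e0, add_zero]
    rw [show Icc 1 n = (range n).image (fun k => k + 1) by
      ext M
      simp only [mem_Icc, mem_image, mem_range]
      constructor
      · intro h; exact ⟨M - 1, by omega, by omega⟩
      · rintro ⟨k, hk, rfl⟩; omega]
    rw [Finset.sum_image (by intro a _ b _ h; simpa using h)]
    apply Finset.sum_congr rfl
    intro M _
    unfold AZ'
    rw [if_neg (by omega)]

end

end Pool.Agent.H91R3.DC
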