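import Pool.Agent.H91R3.DC10

set_option autoImplicit false

namespace Pool.Agent.H91R3.DC

noncomputable section

open PowerSeries

def Sys4 (X Y W Z : PowerSeries PS) : Prop :=
  X = yy * sq (yy * geo 1 + geo 1 * (geo 1 * X) + geo 1 * (Y + W) + Z) ∧
  Y = sq (yy * (geo 1 * (1 + geo 1 * X + W))) +
      yy * (geo 1 * ((geo qq * C (atq (X + Y)) - sq (geo 1 * (X + Y))) +
        (C (atq (W + Z)) - sq (W + Z)))) ∧
  W = sq (yy * (geo 1 * (1 + geo 1 * X + Y))) +
      yy * (geo 1 * ((geo qq * C (atq (X + W)) - sq (geo 1 * (X + W))) +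
        (C (atq (Y + Z)) - sq (Y + Z)))) ∧
  Z = C qq * sq (yy * (geo 1 * (1 + geo 1 * X))) +
    C qq * (yy * (geo 1 * (geo qq * C (atq (X + Y)) - sq (geo 1 * (X + Y))) +
      geo 1 * (geo qq * C (atq (X + W)) - sq (geo 1 * (X + W))))) +
    (yy * (geo 1 * C (datq (X + Y + W + Z))) -
      yy * (geo 1 * (geo 1 * (C (atq (X + Y + W + Z)) -
        sq (X + Y + W + Z)))))

theorem sys4_PP : Sys4 (PP AX) (PP AY) (PP AW) (PP AZ') := ⟨E1, E2, E2', E3⟩

theorem sys4_swap {X Y W Z : PowerSeries PS} (h : Sys4 X Y W Z) : Sys4 X W Y Z := by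
  obtain ⟨h1, h2, h3, h4⟩ := h
  refine ⟨?_, h3, h2, ?_⟩
  · rw [add_comm W Y]; exact h1
  · rw [show X + W + Y = X + Y + W by ring]
    rw [show geo 1 * (geo qq * C (atq (X + W)) - sq (geo 1 * (X + W))) +
      geo 1 * (geo qq * C (atq (X + Y)) - sq (geo 1 * (X + Y))) =
      geo 1 * (geo qq * C (atq (X + Y)) - sq (geo 1 * (X + Y))) +
      geo 1 * (geo qq * C (atq (X + W)) - sq (geo 1 * (X + W))) by ring]
    exact h4

theorem atq_q (F : PowerSeries PS) : atq (C qq * F) = qq * atq F := by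
  ext n
  rw [coeff_atq]
  cases n with
  | zero =>
    rw [show qq = PowerSeries.X from rfl, coeff_zero_X_mul]
    simp only [zero_add, Finset.sum_range_one]
    exact cf_q_zero F 0
  | succ n =>
    rw [show qq * atq F = PowerSeries.X * atq F from rfl, coeff_succ_X_mul, coeff_atq,
      Finset.sum_range_succ, Nat.sub_self, cf_q_zero, add_zero]
    apply Finset.sum_congr rfl
    intro k hk
    rw [Finset.mem_range] at hk
    rw [show n + 1 - k = (n - k) + 1 by omega, cf_q_succ]

theorem datq_q (F : PowerSeries PS) : datq (C qq * F) = qq * datq F := by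
  ext n
  rw [coeff_datq]
  cases n with
  | zero =>
    rw [show qq = PowerSeries.X from rfl, coeff_zero_X_mul]
    simp
  | succ n =>
    rw [show qq * datq F = PowerSeries.X * datq F from rfl, coeff_succ_X_mul, coeff_datq,
      Finset.sum_range_succ, Nat.sub_self, cf_q_zero, mul_zero, add_zero]
    apply Finset.sum_congr rfl
    intro k hk
    rw [Finset.mem_range] at hk
    rw [show n + 1 - k = (n - k) + 1 by omega, cf_q_succ]

theorem atq_y (F : PowerSeries PS) : atq (yy * F) = qq * atq F := by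
  ext n
  rw [coeff_atq]
  cases n with
  | zero =>
    rw [show qq * atq F = PowerSeries.X * atq F from rfl, coeff_zero_X_mul]
    simp only [zero_add, Finset.sum_range_one]
    exact cf_y_zero F 0
  | succ n =>
    rw [show qq * atq F = PowerSeries.X * atq F from rfl, coeff_succ_X_mul, coeff_atq,
      Finset.sum_range_succ', cf_y_zero, add_zero]
    apply Finset.sum_congr rfl
    intro k hk
    rw [Finset.mem_range] at hk
    rw [show n + 1 - (k + 1) = n - k by omega, cf_y_succ]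

theorem datq_y (F : PowerSeries PS) : datq (yy * F) = qq * (datq F + atq F) := by
  ext n
  rw [coeff_datq]
  cases n with
  | zero =>
    rw [show qq * (datq F + atq F) = PowerSeries.X * (datq F + atq F) from rfl, coeff_zero_X_mul]
    simp
  | succ n =>
    rw [show qq * (datq F + atq F) = PowerSeries.X * (datq F + atq F) from rfl, coeff_succ_X_mul,
      map_add, coeff_atq, coeff_datq, Finset.sum_range_succ', cf_y_zero, mul_zero, add_zero,
      ← Finset.sum_add_distrib]
    apply Finset.sum_congr rfl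
    intro k hk
    rw [Finset.mem_range] at hk
    rw [show n + 1 - (k + 1) = n - k by omega, cf_y_succ]
    push_cast
    ring

theorem datq_add (F G : PowerSeries PS) : datq (F + G) = datq F + datq G := by
  ext n
  rw [map_add, coeff_datq, coeff_datq, coeff_datq, ← Finset.sum_add_distrib]
  apply Finset.sum_congr rfl
  intro k _
  rw [cf_add]; ring

theorem sq_C (a : PS) : sq (C a) = C a := by
  unfold sq
  ext1 n
  rw [coeff_rescale, PowerSeries.coeff_C]
  split_ifs with h
  · subst h; simp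
  · simp

theorem atq_qk (k : ℕ) (F : PowerSeries PS) : atq (C qq ^ k * F) = qq ^ k * atq F := by
  induction k with
  | zero => simp
  | succ k ih => rw [pow_succ', mul_assoc, atq_q, ih]; ring

theorem datq_qk (k : ℕ) (F : PowerSeries PS) : datq (C qq ^ k * F) = qq ^ k * datq F := by
  induction k with
  | zero => simp
  | succ k ih => rw [pow_succ', mul_assoc, datq_q, ih]; ring

theorem cf_qk (k n b : ℕ) (F : PowerSeries PS) (h : n < k) : cf n b (C qq ^ k * F) = 0 := by
  induction k generalizing n with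
  | zero => omega
  | succ k ih =>
    rw [pow_succ', mul_assoc]
    cases n with
    | zero => rw [cf_q_zero]
    | succ n => rw [cf_q_succ]; exact ih n (by omega)

theorem step4 {X Y W Z X' Y' W' Z' : PowerSeries PS} (h : Sys4 X Y W Z) (h' : Sys4 X' Y' W' Z')
    (k : ℕ) : ∃ DX DY DW DZ : PowerSeries PS, X = X' + C qq ^ k * (yy * DX) ∧
      Y = Y' + C qq ^ k * (yy * DY) ∧ W = W' + C qq ^ k * (yy * DW) ∧
      Z = Z' + C qq ^ k * (yy * DZ) := by
  obtain ⟨h1, h2, h3, h4⟩ := h
  obtain ⟨g1, g2, g3, g4⟩ := h'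
  have sqy := sq_yy
  induction k with
  | zero =>
    have key : ∀ F G : PowerSeries PS, (∃ A, F = yy * A) → (∃ B, G = yy * B) →
        ∃ D, F = G + C qq ^ 0 * (yy * D) := by
      rintro F G ⟨A, rfl⟩ ⟨B, rfl⟩
      exact ⟨A - B, by ring⟩
    have f1 : ∀ {X Y W Z : PowerSeries PS}, Sys4 X Y W Z → (∃ A, X = yy * A) ∧ (∃ A, Y = yy * A) ∧
        (∃ A, W = yy * A) ∧ (∃ A, Z = yy * A) := by
      intro X Y W Z h
      obtain ⟨h1, h2, h3, h4⟩ := h
      refine ⟨⟨_, h1⟩, ?_, ?_, ?_⟩
      · rw [sq_mul, sqy] at h2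
        refine ⟨C qq * sq (geo 1 * (1 + geo 1 * X + W)) + (geo 1 * ((geo qq * C (atq (X + Y)) -
          sq (geo 1 * (X + Y))) + (C (atq (W + Z)) - sq (W + Z)))), ?_⟩
        rw [mul_add]
        conv_lhs => rw [h2]
        ring
      · rw [sq_mul, sqy] at h3
        refine ⟨C qq * sq (geo 1 * (1 + geo 1 * X + Y)) + (geo 1 * ((geo qq * C (atq (X + W)) -
          sq (geo 1 * (X + W))) + (C (atq (Y + Z)) - sq (Y + Z)))), ?_⟩
        rw [mul_add]
        conv_lhs => rw [h3]
        ring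
      · rw [sq_mul, sqy] at h4
        refine ⟨C qq * (C qq * sq (geo 1 * (1 + geo 1 * X))) +
          C qq * (geo 1 * (geo qq * C (atq (X + Y)) - sq (geo 1 * (X + Y))) +
          geo 1 * (geo qq * C (atq (X + W)) - sq (geo 1 * (X + W)))) +
          ((geo 1 * C (datq (X + Y + W + Z))) -
          (geo 1 * (geo 1 * (C (atq (X + Y + W + Z)) -
          sq (X + Y + W + Z))))), ?_⟩
        conv_lhs => rw [h4]
        ring
    obtain ⟨a1, a2, a3, a4⟩ := f1 ⟨h1, h2, h3, h4⟩
    obtain ⟨b1, b2, b3, b4⟩ := f1 ⟨g1, g2, g3, g4⟩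
    obtain ⟨D1, e1⟩ := key X X' a1 b1
    obtain ⟨D2, e2⟩ := key Y Y' a2 b2
    obtain ⟨D3, e3⟩ := key W W' a3 b3
    obtain ⟨D4, e4⟩ := key Z Z' a4 b4
    exact ⟨D1, D2, D3, D4, e1, e2, e3, e4⟩
  | succ k ih =>
    obtain ⟨DX, DY, DW, DZ, e1, e2, e3, e4⟩ := ih
    have hA : ∀ F D : PowerSeries PS, C (atq (F + C qq ^ k * (yy * D))) =
        C (atq F) + C qq ^ (k + 1) * C (atq D) := by
      intro F D
      rw [atq_add, atq_qk, atq_y, map_add]
      simp only [map_mul, map_pow]
      ring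
    have hD : ∀ F D : PowerSeries PS, C (datq (F + C qq ^ k * (yy * D))) =
        C (datq F) + C qq ^ (k + 1) * C (datq D + atq D) := by
      intro F D
      rw [datq_add, datq_qk, datq_y, map_add]
      simp only [map_mul, map_pow, map_add]
      ring
    have hS : ∀ F D : PowerSeries PS, sq (F + C qq ^ k * (yy * D)) =
        sq F + C qq ^ (k + 1) * (yy * sq D) := by
      intro F D
      have : sq (C qq ^ k) = C qq ^ k := by
        rw [← map_pow, sq_C]
      rw [sq_add, sq_mul, sq_mul, sqy, this]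
      ring
    refine ⟨yy * sq (geo 1 * (geo 1 * DX) + geo 1 * (DY + DW) + DZ),
      C qq * yy * sq (geo 1 * (geo 1 * DX + DW)) +
        (geo 1 * ((geo qq * C (atq (DX + DY)) - yy * sq (geo 1 * (DX + DY))) +
        (C (atq (DW + DZ)) - yy * sq (DW + DZ)))),
      C qq * yy * sq (geo 1 * (geo 1 * DX + DY)) +
        (geo 1 * ((geo qq * C (atq (DX + DW)) - yy * sq (geo 1 * (DX + DW))) +
        (C (atq (DY + DZ)) - yy * sq (DY + DZ)))),
      C qq * (C qq * yy * sq (geo 1 * (geo 1 * DX))) +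
        C qq * ((geo 1 * (geo qq * C (atq (DX + DY)) - yy * sq (geo 1 * (DX + DY))) +
        geo 1 * (geo qq * C (atq (DX + DW)) - yy * sq (geo 1 * (DX + DW))))) +
        ((geo 1 * C (datq (DX + DY + DW + DZ) + atq (DX + DY + DW + DZ))) -
        (geo 1 * (geo 1 * (C (atq (DX + DY + DW + DZ)) -
        yy * sq (DX + DY + DW + DZ))))), ?_, ?_, ?_, ?_⟩
    · have : yy * geo 1 + geo 1 * (geo 1 * X) + geo 1 * (Y + W) + Z =
          (yy * geo 1 + geo 1 * (geo 1 * X') + geo 1 * (Y' + W') + Z') +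
          C qq ^ k * (yy * (geo 1 * (geo 1 * DX) + geo 1 * (DY + DW) + DZ)) := by
        rw [e1, e2, e3, e4]; ring
      rw [this, hS] at h1
      rw [h1]
      conv_rhs => rw [g1]
      ring
    · have q1 : yy * (geo 1 * (1 + geo 1 * X + W)) = yy * (geo 1 * (1 + geo 1 * X' + W')) +
          C qq ^ k * (yy * (yy * (geo 1 * (geo 1 * DX + DW)))) := by
        rw [e1, e3]; ring
      have q2 : X + Y = (X' + Y') + C qq ^ k * (yy * (DX + DY)) := by rw [e1, e2]; ring
      have q3 : geo 1 * (X + Y) = geo 1 * (X' + Y') + C qq ^ k * (yy * (geo 1 * (DX + DY))) := by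
        rw [e1, e2]; ring
      have q4 : W + Z = (W' + Z') + C qq ^ k * (yy * (DW + DZ)) := by rw [e3, e4]; ring
      rw [q3, q1, q2, q4, hA, hA, hS, hS, hS] at h2
      simp only [sq_mul yy, sqy] at h2 g2
      rw [h2]
      conv_rhs => rw [g2]
      ring
    · have q1 : yy * (geo 1 * (1 + geo 1 * X + Y)) = yy * (geo 1 * (1 + geo 1 * X' + Y')) +
          C qq ^ k * (yy * (yy * (geo 1 * (geo 1 * DX + DY)))) := by
        rw [e1, e2]; ring
      have q2 : X + W = (X' + W') + C qq ^ k * (yy * (DX + DW)) := by rw [e1, e3]; ring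
      have q3 : geo 1 * (X + W) = geo 1 * (X' + W') + C qq ^ k * (yy * (geo 1 * (DX + DW))) := by
        rw [e1, e3]; ring
      have q4 : Y + Z = (Y' + Z') + C qq ^ k * (yy * (DY + DZ)) := by rw [e2, e4]; ring
      rw [q3, q1, q2, q4, hA, hA, hS, hS, hS] at h3
      simp only [sq_mul yy, sqy] at h3 g3
      rw [h3]
      conv_rhs => rw [g3]
      ring
    · have q1 : yy * (geo 1 * (1 + geo 1 * X)) = yy * (geo 1 * (1 + geo 1 * X')) +
          C qq ^ k * (yy * (yy * (geo 1 * (geo 1 * DX)))) := by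
        rw [e1]; ring
      have q2 : X + Y = (X' + Y') + C qq ^ k * (yy * (DX + DY)) := by rw [e1, e2]; ring
      have q3 : geo 1 * (X + Y) = geo 1 * (X' + Y') + C qq ^ k * (yy * (geo 1 * (DX + DY))) := by
        rw [e1, e2]; ring
      have q4 : X + W = (X' + W') + C qq ^ k * (yy * (DX + DW)) := by rw [e1, e3]; ring
      have q5 : geo 1 * (X + W) = geo 1 * (X' + W') + C qq ^ k * (yy * (geo 1 * (DX + DW))) := by
        rw [e1, e3]; ring
      have q6 : X + Y + W + Z = (X' + Y' + W' + Z') + C qq ^ k * (yy * (DX + DY + DW + DZ)) := by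
        rw [e1, e2, e3, e4]; ring
      rw [q6, q3, q5, q1, q2, q4, hA, hA, hA, hD, hS, hS, hS, hS] at h4
      simp only [sq_mul yy, sqy] at h4 g4
      rw [h4]
      conv_rhs => rw [g4]
      ring

theorem uniq4 {X Y W Z X' Y' W' Z' : PowerSeries PS} (h : Sys4 X Y W Z) (h' : Sys4 X' Y' W' Z') :
    X = X' ∧ Y = Y' ∧ W = W' ∧ Z = Z' := by
  have key : ∀ n b, cf n b X = cf n b X' ∧ cf n b Y = cf n b Y' ∧ cf n b W = cf n b W' ∧
      cf n b Z = cf n b Z' := by
    intro n b
    obtain ⟨DX, DY, DW, DZ, e1, e2, e3, e4⟩ := step4 h h' (n + 1)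
    rw [e1, e2, e3, e4]
    simp only [cf_add, cf_qk (n + 1) n b _ (Nat.lt_succ_self n), add_zero, and_self]
  exact ⟨cf_ext fun n b => (key n b).1, cf_ext fun n b => (key n b).2.1,
    cf_ext fun n b => (key n b).2.2.1, cf_ext fun n b => (key n b).2.2.2⟩

theorem AY_AW : PP AW = PP AY := (uniq4 sys4_PP (sys4_swap sys4_PP)).2.2.1

theorem system_iff (X Y Z : PowerSeries PS) : System X Y Z ↔ Sys4 X Y Y Z := by
  have hH : geo 1 * (1 - yy) = 1 := H_mul
  have r1 : yy * (C qq * yy * geo qq + geo qq ^ 2 * sq X + 2 * geo qq * sq Y + sq Z) =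
      yy * sq (yy * geo 1 + geo 1 * (geo 1 * X) + geo 1 * (Y + Y) + Z) := by
    simp only [sq_add, sq_mul, sq_H, sq_yy]
    ring
  have r2 : C qq * yy * geo qq * (1 + geo qq * sq X + sq Y) +
      yy * geo 1 * (geo qq * (C (atq X + atq Y) - sq X - sq Y) +
        (C (atq Y + atq Z) - sq Y - sq Z)) =
      sq (yy * (geo 1 * (1 + geo 1 * X + Y))) +
      yy * (geo 1 * ((geo qq * C (atq (X + Y)) - sq (geo 1 * (X + Y))) +
        (C (atq (Y + Z)) - sq (Y + Z)))) := by
    simp only [sq_add, sq_mul, sq_H, sq_yy, sq_one, atq_add]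
    ring
  have r3 : C qq * (C qq * yy) * geo qq * (1 + geo qq * sq X) +
      2 * (C qq * yy) * geo qq * geo 1 * (C (atq X + atq Y) - sq X - sq Y) +
      yy * geo 1 ^ 2 * ((1 - yy) * C (datq (X + 2 * Y + Z)) - C (atq (X + 2 * Y + Z)) +
      sq (X + 2 * Y + Z)) =
      C qq * sq (yy * (geo 1 * (1 + geo 1 * X))) +
    C qq * (yy * (geo 1 * (geo qq * C (atq (X + Y)) - sq (geo 1 * (X + Y))) +
      geo 1 * (geo qq * C (atq (X + Y)) - sq (geo 1 * (X + Y))))) +
    (yy * (geo 1 * C (datq (X + Y + Y + Z))) -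
      yy * (geo 1 * (geo 1 * (C (atq (X + Y + Y + Z)) -
        sq (X + Y + Y + Z))))) := by
    rw [show X + 2 * Y + Z = X + Y + Y + Z by ring]
    simp only [sq_mul, sq_add, sq_H, sq_yy, sq_one]
    rw [show atq (X + Y) = atq X + atq Y from atq_add X Y]
    have : yy * geo 1 ^ 2 * ((1 - yy) * C (datq (X + Y + Y + Z)) - C (atq (X + Y + Y + Z)) +
        (sq X + sq Y + sq Y + sq Z)) = yy * geo 1 * (geo 1 * (1 - yy)) * C (datq (X + Y + Y + Z)) +
        yy * geo 1 ^ 2 * (- C (atq (X + Y + Y + Z)) + (sq X + sq Y + sq Y + sq Z)) := by ring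
    rw [this, hH]
    ring
  unfold System Sys4
  rw [r1, r2, r3]
  tauto

theorem classes_finite (n : ℕ) : (classes n).Finite := by
  obtain ⟨S, h1, h2, h3⟩ := classes_eq n
  rw [h1, h3]
  apply Set.Finite.image
  apply Set.Finite.image
  apply Set.Finite.subset (LL n).finite_toSet
  intro L hL
  rw [Finset.mem_coe, mem_LL]
  exact ⟨hL.1, hL.2.1⟩

/-- Main result. -/
theorem main :
    (∃! S : PowerSeries PS × PowerSeries PS × PowerSeries PS, System S.1 S.2.1 S.2.2) ∧
    ∀ X Y Z : PowerSeries PS, System X Y Z →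
      (PowerSeries.mk fun n => (numDC n : ℤ)) = qq + atq (X + 2 * Y + Z) := by
  have hS : System (PP AX) (PP AY) (PP AZ') := by
    rw [system_iff]
    have := sys4_PP
    rw [AY_AW] at this
    exact this
  refine ⟨⟨(PP AX, PP AY, PP AZ'), hS, ?_⟩, ?_⟩
  · rintro ⟨X, Y, Z⟩ h
    simp only at h
    rw [system_iff] at h hS
    obtain ⟨h1, h2, -, h4⟩ := uniq4 h hS
    rw [h1, h2, h4]
  · intro X Y Z h
    rw [system_iff] at h hS
    obtain ⟨h1, h2, -, h4⟩ := uniq4 h hS
    rw [numDC_atq, AY_AW, h1, h2, h4]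
    congr 2
    ring

end

end Pool.Agent.H91R3.DC
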