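import Pool.Agent.H91R3.DC1

set_option autoImplicit false

namespace Pool.Agent.H91R3.DC

noncomputable section

theorem mem_cells_cons {σ : St} {L : List St} {p : ℤ × ℤ} : p ∈ cells (σ :: L) ↔
    (p.1 + p.2 = (L.length : ℤ) ∧ σ.l ≤ p.1 ∧ p.1 ≤ σ.r) ∨ p ∈ cells L := by
  rw [cells, Finset.mem_union, mem_line]

theorem diagConvex_cells (L : List St) : DiagConvex (cells L) := by
  induction L with
  | nil => intro p hp; simp [cells] at hp
  | cons σ L ih =>
    intro p hp q hq r h1 h2 h3 h4
    simp only [cells, Finset.mem_union, mem_line] at hp hq ⊢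
    rcases hp with hp | hp
    · rcases hq with hq | hq
      · left; omega
      · have := cells_line hq; omega
    · rcases hq with hq | hq
      · have := cells_line hp; omega
      · right; exact ih p hp q hq r h1 h2 h3 h4

theorem poly_of_good {σ : St} {L : List St} (h : Good (σ :: L)) (hs : σ.l = σ.s) (ht : σ.t = σ.r) :
    IsPolyomino (cells (σ :: L)) := by
  have hI := inv_of_good h
  obtain ⟨a1, a2, a3⟩ := hI.wf
  refine ⟨⟨(σ.l, L.length - σ.l), ?_⟩, ?_⟩
  · rw [cells, Finset.mem_union, mem_line]
    left; exact ⟨by simp, le_rfl, by omega⟩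
  · intro p hp q hq
    obtain ⟨x, h1, h2, h3⟩ := hI.i1 p hp
    obtain ⟨y, g1, g2, g3⟩ := hI.i1 q hq
    exact (h3.trans' (hI.i2 x y (by omega) (by omega) (by omega) (by omega))).trans' g3.symm'

/-- normalised sets of cells -/
def Norm (A : Finset (ℤ × ℤ)) : Prop :=
  ((0 : ℤ), (0 : ℤ)) ∈ A ∧ ∀ p ∈ A, 0 ≤ p.1 + p.2 ∧ (p.1 + p.2 = 0 → 0 ≤ p.1)

theorem norm_of_good {L : List St} (h : Good L) : Norm (cells L) := by
  induction h with
  | init r hr =>
    constructor
    · simp only [cells, Finset.mem_union, mem_line]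
      left; simp [initSt, hr]
    · intro p hp
      simp only [cells, Finset.mem_union, mem_line, initSt] at hp
      simp at hp
      omega
  | step σ L l' r' h hok ih =>
    constructor
    · rw [cells, Finset.mem_union]; right; exact ih.1
    · intro p hp
      rw [cells, Finset.mem_union, mem_line] at hp
      rcases hp with hp | hp
      · simp only [List.length_cons] at hp
        push_cast at hp
        omega
      · exact ih.2 p hp

theorem exists_interval {A : Finset (ℤ × ℤ)} (hA : DiagConvex A) (k : ℤ)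
    (hk : ∃ p ∈ A, p.1 + p.2 = k) :
    ∃ l r : ℤ, l ≤ r ∧ (∀ p : ℤ × ℤ, (p ∈ A ∧ p.1 + p.2 = k) ↔ p ∈ line k l r) := by
  classical
  set B := A.filter (fun p => p.1 + p.2 = k) with hB
  have hBne : B.Nonempty := by
    obtain ⟨p, hp, hpk⟩ := hk
    exact ⟨p, by rw [hB, Finset.mem_filter]; exact ⟨hp, hpk⟩⟩
  obtain ⟨p, hp, hpmin⟩ := Finset.exists_min_image B (fun p => p.1) hBne
  obtain ⟨q, hq, hqmax⟩ := Finset.exists_max_image B (fun p => p.1) hBne
  rw [hB, Finset.mem_filter] at hp hq
  refine ⟨p.1, q.1, hpmin q (by rw [hB, Finset.mem_filter]; exact hq), fun r => ?_⟩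
  rw [mem_line]
  constructor
  · rintro ⟨h1, h2⟩
    have : r ∈ B := by rw [hB, Finset.mem_filter]; exact ⟨h1, h2⟩
    exact ⟨h2, hpmin r this, hqmax r this⟩
  · rintro ⟨h1, h2, h3⟩
    exact ⟨hA p hp.1 q hq.1 r (by omega) (by omega) h2 h3, h1⟩

theorem exists_line_pred {A : Finset (ℤ × ℤ)} (hA : IsPolyomino A) (h0 : ((0 : ℤ), (0 : ℤ)) ∈ A)
    (k : ℕ) (hk : ∃ p ∈ A, p.1 + p.2 = (k : ℤ) + 1) : ∃ p ∈ A, p.1 + p.2 = (k : ℤ) := by
  by_contra hcon
  push Not at hcon
  obtain ⟨p, hp, hpk⟩ := hk
  have hk0 : (k : ℤ) ≠ 0 := by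
    intro h
    have := hcon _ h0
    simp at this
    omega
  have := Conn.closed (A := A) (P := fun p => p.1 + p.2 < (k : ℤ)) (fun u hu v hv huv hPu => by
    have := hcon v hv
    rw [adj_iff] at huv
    omega) (hA.2 _ h0 _ hp) (by simp; omega)
  omega

theorem exists_good_aux {A : Finset (ℤ × ℤ)} (hA : IsPolyomino A) (hc : DiagConvex A)
    (hn : Norm A) (k : ℕ) (hk : ∃ p ∈ A, p.1 + p.2 = (k : ℤ)) :
    ∃ σ L, Good (σ :: L) ∧ L.length = k ∧
      ∀ p : ℤ × ℤ, p ∈ cells (σ :: L) ↔ p ∈ A ∧ p.1 + p.2 ≤ k := by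
  induction k with
  | zero =>
    obtain ⟨l, r, hlr, h⟩ := exists_interval hc 0 (by simpa using hk)
    have h1 := (h (0, 0)).1 ⟨hn.1, by simp⟩
    have h2 := (h (l, -l)).2 (by rw [mem_line]; exact ⟨by simp, le_rfl, hlr⟩)
    have h3 := (hn.2 _ h2.1).2 (by simp)
    rw [mem_line] at h1
    simp only at h1 h3
    have hl : l = 0 := by omega
    subst hl
    refine ⟨initSt r, [], Good.init r hlr, rfl, fun p => ?_⟩
    simp only [cells, Finset.mem_union, Finset.notMem_empty, or_false, List.length_nil,
      Nat.cast_zero]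
    rw [show line 0 (initSt r).l (initSt r).r = line 0 0 r from rfl, ← h p]
    constructor
    · rintro ⟨h1, h2⟩; exact ⟨h1, by omega⟩
    · rintro ⟨h1, h2⟩; exact ⟨h1, by have := (hn.2 p h1).1; omega⟩
  | succ k ih =>
    have hk' : ∃ p ∈ A, p.1 + p.2 = (k : ℤ) + 1 := by
      obtain ⟨p, hp, h⟩ := hk
      exact ⟨p, hp, by push_cast at h; exact h⟩
    obtain ⟨σ, L, hG, hlen, hmem⟩ := ih (exists_line_pred hA hn.1 k hk')
    have hI := inv_of_good hG
    obtain ⟨a1, a2, a3⟩ := hI.wf
    obtain ⟨l, r, hlr, h⟩ := exists_interval hc ((k : ℤ) + 1) hk'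
    obtain ⟨p0, hp0, hp0k⟩ := hk'
    have hlenZ : (L.length : ℤ) = k := by rw [hlen]
    have memA : ∀ x, σ.l ≤ x → x ≤ σ.r → ((x, (k : ℤ) - x) : ℤ × ℤ) ∈ cells (σ :: L) := by
      intro x h1 h2
      rw [cells, Finset.mem_union, mem_line]
      left
      exact ⟨by rw [hlenZ]; ring, h1, h2⟩
    have hok : ok σ l r := by
      apply ok_of_touch hI.wf hlr
      · intro x hx1 hx2 hx3
        have hxA := ((hmem _).1 (memA x hx1 hx2)).1
        have hne : ((x, (k : ℤ) - x) : ℤ × ℤ) ≠ p0 := by
          intro h
          rw [← h] at hp0k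
          simp at hp0k
        obtain ⟨v, hv, hadj⟩ := (hA.2 _ hxA _ hp0).exists_adj hne
        have hnot := hI.i3 x hx1 hx2 hx3 v
        rw [hlenZ] at hnot
        have hv' : ¬ (v ∈ A ∧ v.1 + v.2 ≤ k) := fun h => hnot ((hmem v).2 h) hadj
        have hvk : v.1 + v.2 = (k : ℤ) + 1 := by
          rw [adj_iff] at hadj
          simp only at hadj
          have : ¬ v.1 + v.2 ≤ (k : ℤ) := fun h => hv' ⟨hv, h⟩
          omega
        have := (h v).1 ⟨hv, hvk⟩
        rw [mem_line] at this
        rw [adj_iff] at hadj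
        simp only at hadj
        omega
      · by_contra hcon
        have key : ∀ y, σ.s ≤ y → y ≤ σ.t + 1 → ¬ (l ≤ y ∧ y ≤ r) := by
          intro y h1 h2 h3
          exact hcon ⟨by omega, by omega⟩
        have hsA := memA σ.s a1 (by omega)
        have hcl := Conn.closed (A := A)
          (P := fun p => p ∈ cells (σ :: L) ∧ Conn (cells (σ :: L)) p (σ.s, (k : ℤ) - σ.s))
          (fun u hu v hv huv hPu => by
            by_cases hvk : v.1 + v.2 ≤ (k : ℤ)
            · have hvc := (hmem v).2 ⟨hv, hvk⟩
              exact ⟨hvc, (Conn.step hvc hPu.1 huv.symm').trans' hPu.2⟩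
            · exfalso
              have huk := ((hmem u).1 hPu.1).2
              have e1 : u.1 + u.2 = (k : ℤ) := by rw [adj_iff] at huv; omega
              have e2 : v.1 + v.2 = (k : ℤ) + 1 := by rw [adj_iff] at huv; omega
              have hvl := (h v).1 ⟨hv, e2⟩
              rw [mem_line] at hvl
              -- u is in the last line
              have hu' := hPu.1
              rw [cells, Finset.mem_union, mem_line] at hu'
              have hu'' : σ.l ≤ u.1 ∧ u.1 ≤ σ.r := by
                rcases hu' with h | h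
                · exact h.2
                · have := cells_line h; omega
              have hueq : u = (u.1, (k : ℤ) - u.1) := by ext <;> simp; omega
              have hub : σ.s ≤ u.1 ∧ u.1 ≤ σ.t := by
                by_contra hnb
                have hub' : u.1 < σ.s ∨ σ.t < u.1 := by omega
                have hne : u ≠ (σ.s, (k : ℤ) - σ.s) := by
                  intro h
                  rw [h] at hub'
                  simp at hub'
                  omega
                obtain ⟨w, hw, hadj⟩ := hPu.2.exists_adj hne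
                have := hI.i3 u.1 hu''.1 hu''.2 hub' w hw
                rw [hlenZ, ← hueq] at this
                exact this hadj
              refine key v.1 ?_ ?_ hvl.2
              · rw [adj_iff] at huv; omega
              · rw [adj_iff] at huv; omega)
          (hA.2 _ ((hmem _).1 hsA).1 _ hp0) ⟨hsA, Conn.rfl'⟩
        have := ((hmem p0).1 hcl.1).2
        omega
    refine ⟨next σ l r, σ :: L, Good.step σ L l r hG hok, by simp [hlen], fun p => ?_⟩
    rw [cells, Finset.mem_union, hmem]
    have e : (((σ :: L).length : ℕ) : ℤ) = (k : ℤ) + 1 := by simp [hlen]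
    rw [e, show line ((k : ℤ) + 1) (next σ l r).l (next σ l r).r = line ((k : ℤ) + 1) l r from rfl,
      ← h p]
    push_cast
    constructor
    · rintro (h | h)
      · exact ⟨h.1, by omega⟩
      · exact ⟨h.1, by omega⟩
    · rintro ⟨h1, h2⟩
      by_cases h3 : p.1 + p.2 = (k : ℤ) + 1
      · left; exact ⟨h1, h3⟩
      · right; exact ⟨h1, by omega⟩

theorem exists_good {A : Finset (ℤ × ℤ)} (hA : IsPolyomino A) (hc : DiagConvex A)
    (hn : Norm A) : ∃ σ L, Good (σ :: L) ∧ cells (σ :: L) = A ∧ σ.l = σ.s ∧ σ.t = σ.r := by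
  obtain ⟨p, hp, hpmax⟩ := Finset.exists_max_image A (fun p => p.1 + p.2) hA.1
  have hp0 := (hn.2 p hp).1
  obtain ⟨σ, L, hG, hlen, hmem⟩ := exists_good_aux hA hc hn (p.1 + p.2).toNat
    ⟨p, hp, by rw [Int.toNat_of_nonneg hp0]⟩
  have hcells : cells (σ :: L) = A := by
    ext q
    rw [hmem, Int.toNat_of_nonneg hp0]
    exact ⟨fun h => h.1, fun h => ⟨h, hpmax q h⟩⟩
  have hI := inv_of_good hG
  obtain ⟨a1, a2, a3⟩ := hI.wf
  have memA : ∀ x, σ.l ≤ x → x ≤ σ.r → ((x, (L.length : ℤ) - x) : ℤ × ℤ) ∈ A := by
    intro x h1 h2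
    rw [← hcells, cells, Finset.mem_union, mem_line]
    left
    exact ⟨by ring, h1, h2⟩
  refine ⟨σ, L, hG, hcells, ?_, ?_⟩
  · by_contra hne
    obtain ⟨v, hv, hadj⟩ := (hA.2 _ (memA σ.l le_rfl (by omega)) _ (memA σ.s a1 (by omega))).exists_adj
      (by intro h; simp only [Prod.mk.injEq] at h; exact hne h.1)
    rw [← hcells] at hv
    exact hI.i3 σ.l le_rfl (by omega) (by omega) v hv hadj
  · by_contra hne
    obtain ⟨v, hv, hadj⟩ := (hA.2 _ (memA σ.r (by omega) le_rfl) _ (memA σ.t (by omega) a3)).exists_adj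
      (by intro h; simp only [Prod.mk.injEq] at h; exact hne h.1.symm)
    rw [← hcells] at hv
    exact hI.i3 σ.r (by omega) le_rfl (by omega) v hv hadj

theorem good_ne_nil {L : List St} (h : Good L) : L ≠ [] := by
  cases h <;> simp

theorem length_eq_of_cells {σ τ : St} {L M : List St} (h1 : Good (σ :: L)) (h2 : Good (τ :: M))
    (h : cells (σ :: L) = cells (τ :: M)) : L.length = M.length := by
  have key : ∀ {σ τ : St} {L M : List St}, Good (σ :: L) → cells (σ :: L) = cells (τ :: M) →
      (L.length : ℤ) ≤ M.length := by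
    intro σ τ L M h1 h
    obtain ⟨a1, a2, a3⟩ := h1.wf
    have : ((σ.l, (L.length : ℤ) - σ.l) : ℤ × ℤ) ∈ cells (τ :: M) := by
      rw [← h, cells, Finset.mem_union, mem_line]
      left; exact ⟨by ring, le_rfl, by omega⟩
    have := cells_line this
    simp only [List.length_cons] at this
    push_cast at this
    omega
  have := key h1 h
  have := key h2 h.symm
  omega

theorem cells_inj {L M : List St} (h1 : Good L) (h2 : Good M) (h : cells L = cells M) : L = M := by
  induction h1 generalizing M with
  | init r hr =>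
    cases h2 with
    | init r' hr' =>
      have e : line 0 0 r = line 0 0 r' := by simpa [cells, initSt] using h
      have e1 : ((r, -r) : ℤ × ℤ) ∈ line 0 0 r' := by
        rw [← e, mem_line]; exact ⟨by simp, hr, le_rfl⟩
      have e2 : ((r', -r') : ℤ × ℤ) ∈ line 0 0 r := by
        rw [e, mem_line]; exact ⟨by simp, hr', le_rfl⟩
      rw [mem_line] at e1 e2
      simp only at e1 e2
      have : r = r' := by omega
      rw [this]
    | step τ K l' r' h' hok =>
      have := length_eq_of_cells (Good.init r hr) (Good.step τ K l' r' h' hok) h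
      simp at this
  | step σ L l1 r1 hG hok ih =>
    cases h2 with
    | init r' hr' =>
      have := length_eq_of_cells (Good.step σ L l1 r1 hG hok) (Good.init r' hr') h
      simp at this
    | step τ K l2 r2 h' hok' =>
      have hlen := length_eq_of_cells (Good.step σ L l1 r1 hG hok) (Good.step τ K l2 r2 h' hok') h
      simp only [List.length_cons] at hlen
      have hlen' : L.length = K.length := by omega
      have hmem : ∀ p : ℤ × ℤ,
          ((p.1 + p.2 = (L.length : ℤ) + 1 ∧ l1 ≤ p.1 ∧ p.1 ≤ r1) ∨ p ∈ cells (σ :: L)) ↔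
          ((p.1 + p.2 = (L.length : ℤ) + 1 ∧ l2 ≤ p.1 ∧ p.1 ≤ r2) ∨ p ∈ cells (τ :: K)) := by
        intro p
        have e1 : p ∈ cells (next σ l1 r1 :: σ :: L) ↔ p ∈ cells (next τ l2 r2 :: τ :: K) := by
          rw [h]
        rw [mem_cells_cons (σ := next σ l1 r1), mem_cells_cons (σ := next τ l2 r2)] at e1
        simp only [next, List.length_cons, ← hlen'] at e1
        push_cast at e1
        exact e1
      have hb1 : ∀ p ∈ cells (σ :: L), p.1 + p.2 < (L.length : ℤ) + 1 := by
        intro p hp
        have := cells_line hp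
        simp only [List.length_cons] at this
        push_cast at this
        omega
      have hb2 : ∀ p ∈ cells (τ :: K), p.1 + p.2 < (L.length : ℤ) + 1 := by
        intro p hp
        have := cells_line hp
        simp only [List.length_cons] at this
        push_cast at this
        omega
      have hcells : cells (σ :: L) = cells (τ :: K) := by
        ext p
        constructor
        · intro hp
          have := hb1 p hp
          rcases (hmem p).1 (Or.inr hp) with h | h
          · omega
          · exact h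
        · intro hp
          have := hb2 p hp
          rcases (hmem p).2 (Or.inr hp) with h | h
          · omega
          · exact h
      have hl := (hmem (l1, (L.length : ℤ) + 1 - l1)).1 (Or.inl ⟨by ring, le_rfl, hok.1⟩)
      have hr := (hmem (r1, (L.length : ℤ) + 1 - r1)).1 (Or.inl ⟨by ring, hok.1, le_rfl⟩)
      have hl2 := (hmem (l2, (L.length : ℤ) + 1 - l2)).2 (Or.inl ⟨by ring, le_rfl, hok'.1⟩)
      have hr2 := (hmem (r2, (L.length : ℤ) + 1 - r2)).2 (Or.inl ⟨by ring, hok'.1, le_rfl⟩)
      have hl' : l2 ≤ l1 := by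
        rcases hl with h | h
        · exact h.2.1
        · have := hb2 _ h; simp at this
      have hr' : r1 ≤ r2 := by
        rcases hr with h | h
        · exact h.2.2
        · have := hb2 _ h; simp at this
      have hl2' : l1 ≤ l2 := by
        rcases hl2 with h | h
        · exact h.2.1
        · have := hb1 _ h; simp at this
      have hr2' : r2 ≤ r1 := by
        rcases hr2 with h | h
        · exact h.2.2
        · have := hb1 _ h; simp at this
      have := ih h' hcells
      obtain rfl : l1 = l2 := by omega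
      obtain rfl : r1 = r2 := by omega
      simp only [List.cons.injEq] at this
      obtain ⟨rfl, rfl⟩ := this
      rfl

end

end Pool.Agent.H91R3.DC
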