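import Pool.Agent.H91R3.DC2

set_option autoImplicit false

namespace Pool.Agent.H91R3.DC

noncomputable section

theorem mem_shift {v p : ℤ × ℤ} {A : Finset (ℤ × ℤ)} : p ∈ shift v A ↔ p - v ∈ A := by
  rw [shift, Finset.mem_map]
  constructor
  · rintro ⟨q, hq, rfl⟩
    simpa using hq
  · intro h
    exact ⟨p - v, h, by simp⟩

theorem shift_zero (A : Finset (ℤ × ℤ)) : shift 0 A = A := by
  ext p; rw [mem_shift]; simp

theorem shift_shift (v w : ℤ × ℤ) (A : Finset (ℤ × ℤ)) : shift v (shift w A) = shift (v + w) A := by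
  ext p; rw [mem_shift, mem_shift, mem_shift, sub_sub]

theorem adj_sub {p q v : ℤ × ℤ} : Adj (p - v) (q - v) ↔ Adj p q := by
  unfold Adj; simp

theorem conn_shift {A : Finset (ℤ × ℤ)} {v p q : ℤ × ℤ} (h : Conn A p q) :
    Conn (shift v A) (p + v) (q + v) := by
  unfold Conn at *
  induction h with
  | refl => exact Relation.ReflTransGen.refl
  | @tail b c _ h2 ih =>
    refine ih.tail ⟨?_, ?_, ?_⟩
    · rw [mem_shift]; simpa using h2.1
    · rw [mem_shift]; simpa using h2.2.1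
    · have := h2.2.2
      unfold Adj at *; simpa using this

theorem isPolyomino_shift {A : Finset (ℤ × ℤ)} (v : ℤ × ℤ) (h : IsPolyomino A) :
    IsPolyomino (shift v A) := by
  refine ⟨?_, fun p hp q hq => ?_⟩
  · obtain ⟨a, ha⟩ := h.1
    exact ⟨a + v, by rw [mem_shift]; simpa using ha⟩
  · rw [mem_shift] at hp hq
    have := conn_shift (v := v) (h.2 _ hp _ hq)
    simpa using this

theorem diagConvex_shift {A : Finset (ℤ × ℤ)} (v : ℤ × ℤ) (h : DiagConvex A) :
    DiagConvex (shift v A) := by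
  intro p hp q hq r h1 h2 h3 h4
  rw [mem_shift] at hp hq ⊢
  apply h _ hp _ hq
  · simp only [Prod.fst_sub, Prod.snd_sub]; omega
  · simp only [Prod.fst_sub, Prod.snd_sub]; omega
  · simp only [Prod.fst_sub]; omega
  · simp only [Prod.fst_sub]; omega

theorem card_shift (A : Finset (ℤ × ℤ)) (v : ℤ × ℤ) : (shift v A).card = A.card := by
  rw [shift, Finset.card_map]

theorem exists_norm {A : Finset (ℤ × ℤ)} (h : A.Nonempty) : ∃ v, Norm (shift v A) := by
  obtain ⟨p, hp, hpmin⟩ := Finset.exists_min_image A (fun p => p.1 + p.2) h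
  have hne : (A.filter (fun q => q.1 + q.2 = p.1 + p.2)).Nonempty :=
    ⟨p, by rw [Finset.mem_filter]; exact ⟨hp, rfl⟩⟩
  obtain ⟨q, hq, hqmin⟩ := Finset.exists_min_image _ (fun p => p.1) hne
  rw [Finset.mem_filter] at hq
  refine ⟨-q, ?_, ?_⟩
  · rw [mem_shift, show ((0 : ℤ), (0 : ℤ)) - -q = q by ext <;> simp]; exact hq.1
  · intro r hr
    rw [mem_shift] at hr
    have h1 := hpmin _ hr
    simp only [sub_neg_eq_add, Prod.fst_add, Prod.snd_add] at h1
    refine ⟨by omega, fun h0 => ?_⟩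
    have := hqmin (r - -q) (by
      rw [Finset.mem_filter]
      refine ⟨hr, ?_⟩
      simp only [sub_neg_eq_add, Prod.fst_add, Prod.snd_add]
      omega)
    simp only [sub_neg_eq_add, Prod.fst_add] at this
    omega

theorem norm_unique {A : Finset (ℤ × ℤ)} {v : ℤ × ℤ} (h1 : Norm A) (h2 : Norm (shift v A)) :
    v = 0 := by
  have e1 := h2.1
  rw [mem_shift] at e1
  have e2 := h1.2 _ e1
  have e3 : (0 : ℤ × ℤ) + v ∈ shift v A := by
    rw [mem_shift, show (0 : ℤ × ℤ) + v - v = ((0 : ℤ), (0 : ℤ)) by simp; rfl]; exact h1.1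
  have e4 := h2.2 _ e3
  simp only [Prod.fst_sub, Prod.snd_sub, zero_sub, zero_add] at e2 e4
  have : v.1 + v.2 = 0 := by omega
  have h5 := e2.2 (by omega)
  have h6 := e4.2 this
  ext
  · simp; omega
  · simp; omega

def fin : List St → Prop
  | [] => False
  | σ :: _ => σ.l = σ.s ∧ σ.t = σ.r

theorem classes_eq (n : ℕ) : ∃ S : Set (Finset (ℤ × ℤ)),
    classes n = (fun A => {B | ∃ v, B = shift v A}) '' S ∧
    Set.InjOn (fun A => {B | ∃ v, B = shift v A}) S ∧
    S = cells '' {L : List St | Good L ∧ area L = n ∧ fin L} := by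
  set S : Set (Finset (ℤ × ℤ)) := {A | IsPolyomino A ∧ DiagConvex A ∧ A.card = n ∧ Norm A} with hS
  have h1 : classes n = (fun A => {B | ∃ v, B = shift v A}) '' S := by
    ext C
    simp only [classes, Set.mem_ofPred_eq, Set.mem_image, hS]
    constructor
    · rintro ⟨A, hA, hc, hn, rfl⟩
      obtain ⟨v, hv⟩ := exists_norm hA.1
      refine ⟨shift v A, ⟨isPolyomino_shift v hA, diagConvex_shift v hc, by rw [card_shift, hn], hv⟩,
        ?_⟩
      ext B
      constructor
      · rintro ⟨w, rfl⟩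
        exact ⟨w + v, by rw [shift_shift]⟩
      · rintro ⟨w, rfl⟩
        exact ⟨w - v, by rw [shift_shift]; simp⟩
    · rintro ⟨A, ⟨hA, hc, hn, -⟩, rfl⟩
      exact ⟨A, hA, hc, hn, rfl⟩
  have h2 : S = cells '' {L : List St | Good L ∧ area L = n ∧ fin L} := by
    ext A
    simp only [Set.mem_ofPred_eq, Set.mem_image, hS]
    constructor
    · rintro ⟨hA, hc, hn, hnorm⟩
      obtain ⟨σ, L, hG, hcl, h3, h4⟩ := exists_good hA hc hnorm
      refine ⟨σ :: L, ⟨hG, ?_, h3, h4⟩, hcl⟩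
      rw [← cells_card, hcl, hn]
    · rintro ⟨L, ⟨hG, hn, hf⟩, rfl⟩
      match L, hG, hn, hf with
      | σ :: L, hG, hn, hf =>
        exact ⟨poly_of_good hG hf.1 hf.2, diagConvex_cells _, by rw [cells_card, hn], norm_of_good hG⟩
  refine ⟨S, h1, ?_, h2⟩
  · intro A hA B hB h
    simp only at h
    have : B ∈ {B | ∃ v, B = shift v A} := by
      rw [h]; exact ⟨0, (shift_zero B).symm⟩
    obtain ⟨v, hv⟩ := this
    have hv0 : v = 0 := norm_unique hA.2.2.2 (by rw [← hv]; exact hB.2.2.2)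
    rw [hv, hv0, shift_zero]

theorem numDC_eq (n : ℕ) : numDC n = Set.ncard {L : List St | Good L ∧ area L = n ∧ fin L} := by
  obtain ⟨S, h1, h2, h3⟩ := classes_eq n
  rw [numDC, h1, Set.InjOn.ncard_image h2, h3, Set.InjOn.ncard_image]
  intro L hL M hM h
  exact cells_inj hL.1 hM.1 h

end

end Pool.Agent.H91R3.DC
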