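import Pool.Agent.H91R3.DC3

set_option autoImplicit false

namespace Pool.Agent.H91R3.DC

noncomputable section

instance : Inhabited St := ⟨⟨0, 0, 0, 0⟩⟩

def hd (L : List St) : St := L.headD default

def JJ (σ : St) : ℤ := if σ.l < σ.s then 1 else σ.t + 1 - σ.l
def LA (σ : St) : ℤ := if σ.t < σ.r then 1 else σ.r + 1 - σ.s

theorem ok_iff {σ : St} (h : σ.wf) (l' r' : ℤ) :
    ok σ l' r' ↔ l' ≤ r' ∧ l' ≤ σ.l + JJ σ ∧ σ.r + 1 - LA σ ≤ r' := by
  obtain ⟨a1, a2, a3⟩ := h
  unfold ok JJ LA
  constructor
  · rintro ⟨g1, g2, g3, g4, g5⟩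
    refine ⟨g1, ?_, ?_⟩
    · split_ifs with h
      · exact g4 h
      · omega
    · split_ifs with h
      · have := g5 h; omega
      · omega
  · rintro ⟨g1, g2, g3⟩
    refine ⟨g1, ?_, ?_, ?_, ?_⟩
    · split_ifs at g2 <;> omega
    · split_ifs at g3 <;> omega
    · intro h; rw [if_pos h] at g2; exact g2
    · intro h; rw [if_pos h] at g3; omega

/-- possible left ends of the next run, of size `M` -/
def runs (σ : St) (M : ℕ) : Finset ℤ := Finset.Icc (σ.r + 2 - LA σ - M) (σ.l + JJ σ)

theorem mem_runs {σ : St} (h : σ.wf) {M : ℕ} (hM : 1 ≤ M) (l' : ℤ) :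
    l' ∈ runs σ M ↔ ok σ l' (l' + M - 1) := by
  rw [ok_iff h, runs, Finset.mem_Icc]
  omega

def LL (n : ℕ) : Finset (List St) :=
  (if n = 0 then ∅ else {[initSt ((n : ℤ) - 1)]}) ∪
    (Finset.range n).attach.biUnion fun k =>
      (LL k.1).biUnion fun L => (runs (hd L) (n - k.1)).image fun l' =>
        next (hd L) l' (l' + ((n - k.1 : ℕ) : ℤ) - 1) :: L
termination_by n
decreasing_by exact Finset.mem_range.1 k.2

theorem LL_eq (n : ℕ) : LL n = (if n = 0 then ∅ else {[initSt ((n : ℤ) - 1)]}) ∪
    (Finset.range n).biUnion fun k =>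
      (LL k).biUnion fun L => (runs (hd L) (n - k)).image fun l' =>
        next (hd L) l' (l' + ((n - k : ℕ) : ℤ) - 1) :: L := by
  rw [LL]
  congr 1
  ext L
  simp only [Finset.mem_biUnion, Finset.mem_attach, true_and, Subtype.exists, Finset.mem_range]
  constructor
  · rintro ⟨k, hk, h⟩; exact ⟨k, hk, h⟩
  · rintro ⟨k, hk, h⟩; exact ⟨k, hk, h⟩

theorem area_pos {σ : St} {L : List St} (h : σ.wf) : 1 ≤ (σ.r + 1 - σ.l).toNat := by
  obtain ⟨a1, a2, a3⟩ := h
  omega

theorem mem_LL (n : ℕ) (L : List St) : L ∈ LL n ↔ Good L ∧ area L = n := by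
  induction n using Nat.strong_induction_on generalizing L with
  | _ n ih =>
    rw [LL_eq, Finset.mem_union, Finset.mem_biUnion]
    constructor
    · rintro (h | ⟨k, hk, h⟩)
      · split_ifs at h with h0
        · simp at h
        · rw [Finset.mem_singleton] at h
          subst h
          refine ⟨Good.init _ (by omega), ?_⟩
          simp only [area, initSt]
          omega
      · rw [Finset.mem_range] at hk
        rw [Finset.mem_biUnion] at h
        obtain ⟨K, hK, h⟩ := h
        rw [Finset.mem_image] at h
        obtain ⟨l', hl', rfl⟩ := h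
        rw [ih k hk] at hK
        obtain ⟨hG, hA⟩ := hK
        match K, hG, hA, hl' with
        | σ :: K, hG, hA, hl' =>
          simp only [hd, List.headD_cons] at hl' ⊢
          have hok := (mem_runs hG.wf (by omega) l').1 hl'
          refine ⟨Good.step σ K _ _ hG hok, ?_⟩
          rw [area, hA]
          simp only [next]
          omega
    · rintro ⟨hG, hA⟩
      cases hG with
      | init r hr =>
        left
        simp only [area, initSt] at hA
        rw [if_neg (by omega), Finset.mem_singleton]
        congr 2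
        omega
      | step σ K l' r' hG hok =>
        right
        simp only [area, next] at hA
        have h1 : l' ≤ r' := hok.1
        have hlt : area (σ :: K) < n := by rw [area]; omega
        refine ⟨area (σ :: K), Finset.mem_range.2 hlt, ?_⟩
        rw [Finset.mem_biUnion]
        refine ⟨σ :: K, (ih _ hlt _).2 ⟨hG, rfl⟩, ?_⟩
        rw [Finset.mem_image]
        have e : ((n - area (σ :: K) : ℕ) : ℤ) = r' + 1 - l' := by
          rw [area]; omega
        refine ⟨l', ?_, ?_⟩
        · simp only [hd, List.headD_cons]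
          rw [mem_runs hG.wf (by omega), e]
          rw [show l' + (r' + 1 - l') - 1 = r' by ring]
          exact hok
        · simp only [hd, List.headD_cons]
          rw [e, show l' + (r' + 1 - l') - 1 = r' by ring]

theorem sum_LL {M : Type*} [AddCommMonoid M] (f : List St → M) (n : ℕ) :
    ∑ L ∈ LL n, f L = (if n = 0 then 0 else f [initSt ((n : ℤ) - 1)]) +
      ∑ k ∈ Finset.range n, ∑ L ∈ LL k, ∑ l' ∈ runs (hd L) (n - k),
        f (next (hd L) l' (l' + ((n - k : ℕ) : ℤ) - 1) :: L) := by
  rw [LL_eq, Finset.sum_union]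
  · congr 1
    · split_ifs
      · simp
      · simp
    · rw [Finset.sum_biUnion]
      · apply Finset.sum_congr rfl
        intro k _
        rw [Finset.sum_biUnion]
        · apply Finset.sum_congr rfl
          intro L _
          rw [Finset.sum_image]
          intro x _ y _ h
          simp only [List.cons.injEq, next, St.mk.injEq] at h
          exact h.1.1
        · intro L _ K _ hne
          simp only [Function.onFun]
          rw [Finset.disjoint_left]
          intro N h1 h2
          rw [Finset.mem_image] at h1 h2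
          obtain ⟨x, -, rfl⟩ := h1
          obtain ⟨y, -, h⟩ := h2
          simp only [List.cons.injEq] at h
          exact hne h.2.symm
      · intro k _ k' _ hne
        simp only [Function.onFun]
        rw [Finset.disjoint_left]
        intro N h1 h2
        rw [Finset.mem_biUnion] at h1 h2
        obtain ⟨L, hL, h1⟩ := h1
        obtain ⟨K, hK, h2⟩ := h2
        rw [Finset.mem_image] at h1 h2
        obtain ⟨x, -, rfl⟩ := h1
        obtain ⟨y, -, h⟩ := h2
        simp only [List.cons.injEq] at h
        rw [mem_LL] at hL hK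
        rw [h.2] at hK
        exact hne (by rw [← hL.2, ← hK.2])
  · rw [Finset.disjoint_left]
    intro N h1 h2
    rw [Finset.mem_biUnion] at h2
    obtain ⟨k, hk, h2⟩ := h2
    rw [Finset.mem_biUnion] at h2
    obtain ⟨L, hL, h2⟩ := h2
    rw [Finset.mem_image] at h2
    obtain ⟨x, -, rfl⟩ := h2
    rw [mem_LL] at hL
    have := good_ne_nil hL.1
    split_ifs at h1
    · simp at h1
    · simp at h1
      exact this h1.2

end

end Pool.Agent.H91R3.DC
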