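import Pool.Agent.H91R3.DC4

set_option autoImplicit false

namespace Pool.Agent.H91R3.DC

noncomputable section

open Finset

def sa (σ : St) : ℕ := (σ.s - σ.l).toNat
def sb (σ : St) : ℕ := (σ.t - σ.s + 1).toNat
def sc (σ : St) : ℕ := (σ.r - σ.t).toNat

def jj (a b : ℕ) : ℕ := if 0 < a then 1 else b

def TT (ω : ℕ → ℕ → ℕ → ℤ) (M a b c : ℕ) : ℤ :=
  (∑ i ∈ range (M - (a + b + c)), ω i (a + b + c + 1) (M - (a + b + c) - 1 - i)) +
  (∑ j ∈ Icc 1 (jj a b), if a + b + c + 1 ≤ M + j then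
    ω 0 (a + b + c + 1 - j) (M + j - (a + b + c + 1)) else 0) +
  (∑ k ∈ Icc 1 (jj c b), if a + b + c + 1 ≤ M + k then
    ω (M + k - (a + b + c + 1)) (a + b + c + 1 - k) 0 else 0) +
  (∑ j ∈ Icc 1 (jj a b), ∑ k ∈ Icc 1 (jj c b), if j + k + M = a + b + c + 1 then ω 0 M 0 else 0)

theorem trans {σ : St} (h : σ.wf) (ω : ℕ → ℕ → ℕ → ℤ) {M : ℕ} (hM : 1 ≤ M) :
    ∑ l' ∈ runs σ M, ω (sa (next σ l' (l' + (M : ℤ) - 1))) (sb (next σ l' (l' + (M : ℤ) - 1)))
      (sc (next σ l' (l' + (M : ℤ) - 1))) = TT ω M (sa σ) (sb σ) (sc σ) := by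
  obtain ⟨a1, a2, a3⟩ := h
  have hm : ((sa σ + sb σ + sc σ : ℕ) : ℤ) = σ.r - σ.l + 1 := by
    unfold sa sb sc; omega
  set m := sa σ + sb σ + sc σ with hmdef
  have hJ : ((jj (sa σ) (sb σ) : ℕ) : ℤ) = JJ σ := by
    unfold jj JJ sa sb
    split_ifs <;> omega
  have hLA : ((jj (sc σ) (sb σ) : ℕ) : ℤ) = LA σ := by
    unfold jj LA sc sb
    split_ifs <;> omega
  have hJm : jj (sa σ) (sb σ) ≤ m := by
    unfold jj; split_ifs <;> omega
  have hLm : jj (sc σ) (sb σ) ≤ m := by
    unfold jj; split_ifs <;> omega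
  set F : ℤ → ℤ := fun l' => ω (sa (next σ l' (l' + (M : ℤ) - 1)))
    (sb (next σ l' (l' + (M : ℤ) - 1))) (sc (next σ l' (l' + (M : ℤ) - 1))) with hF
  have hFval : ∀ l', F l' = ω (max l' σ.l - l').toNat
      (min (l' + (M : ℤ) - 1) (σ.r + 1) - max l' σ.l + 1).toNat
      (l' + (M : ℤ) - 1 - min (l' + (M : ℤ) - 1) (σ.r + 1)).toNat := fun l' => rfl
  rw [TT, ← hmdef]
  rw [← Finset.sum_filter_add_sum_filter_not (runs σ M) (fun l' => l' ≤ σ.l)]
  rw [← Finset.sum_filter_add_sum_filter_not ((runs σ M).filter (fun l' => l' ≤ σ.l))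
    (fun l' => σ.r + 1 ≤ l' + (M : ℤ) - 1)]
  rw [← Finset.sum_filter_add_sum_filter_not ((runs σ M).filter (fun l' => ¬ l' ≤ σ.l))
    (fun l' => σ.r + 1 ≤ l' + (M : ℤ) - 1)]
  have c1 : ∑ l' ∈ ((runs σ M).filter (fun l' => l' ≤ σ.l)).filter
      (fun l' => σ.r + 1 ≤ l' + (M : ℤ) - 1), F l' =
      ∑ i ∈ range (M - m), ω i (m + 1) (M - m - 1 - i) := by
    apply Finset.sum_nbij' (fun l' => (σ.l - l').toNat) (fun i => σ.l - (i : ℤ))
    · intro l' hl'
      simp only [mem_filter, runs, mem_Icc] at hl'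
      rw [mem_range]; omega
    · intro i hi
      rw [mem_range] at hi
      simp only [mem_filter, runs, mem_Icc]
      omega
    · intro l' hl'
      simp only [mem_filter, runs, mem_Icc] at hl'
      omega
    · intro i hi; omega
    · intro l' hl'
      simp only [mem_filter, runs, mem_Icc] at hl'
      rw [hFval, max_eq_right hl'.1.2, min_eq_right hl'.2]
      congr 1 <;> omega
  have c2 : ∑ l' ∈ ((runs σ M).filter (fun l' => ¬ l' ≤ σ.l)).filter
      (fun l' => σ.r + 1 ≤ l' + (M : ℤ) - 1), F l' =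
      ∑ j ∈ Icc 1 (jj (sa σ) (sb σ)), if m + 1 ≤ M + j then
        ω 0 (m + 1 - j) (M + j - (m + 1)) else 0 := by
    rw [← Finset.sum_filter]
    apply Finset.sum_nbij' (fun l' => (l' - σ.l).toNat) (fun i => σ.l + (i : ℤ))
    · intro l' hl'
      simp only [mem_filter, runs, mem_Icc] at hl' ⊢
      omega
    · intro i hi
      simp only [mem_filter, runs, mem_Icc] at hi ⊢
      omega
    · intro l' hl'
      simp only [mem_filter, runs, mem_Icc] at hl'
      omega
    · intro i hi; omega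
    · intro l' hl'
      simp only [mem_filter, runs, mem_Icc] at hl'
      rw [hFval, max_eq_left (by omega), min_eq_right hl'.2]
      congr 1 <;> omega
  have c3 : ∑ l' ∈ ((runs σ M).filter (fun l' => l' ≤ σ.l)).filter
      (fun l' => ¬ σ.r + 1 ≤ l' + (M : ℤ) - 1), F l' =
      ∑ k ∈ Icc 1 (jj (sc σ) (sb σ)), if m + 1 ≤ M + k then
        ω (M + k - (m + 1)) (m + 1 - k) 0 else 0 := by
    rw [← Finset.sum_filter]
    apply Finset.sum_nbij' (fun l' => (σ.r + 2 - l' - M).toNat) (fun i => σ.r + 2 - M - (i : ℤ))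
    · intro l' hl'
      simp only [mem_filter, runs, mem_Icc] at hl' ⊢
      omega
    · intro i hi
      simp only [mem_filter, runs, mem_Icc] at hi ⊢
      omega
    · intro l' hl'
      simp only [mem_filter, runs, mem_Icc] at hl'
      omega
    · intro i hi; omega
    · intro l' hl'
      simp only [mem_filter, runs, mem_Icc] at hl'
      rw [hFval, max_eq_right (by omega), min_eq_left (by omega)]
      congr 1 <;> omega
  have c4 : ∑ l' ∈ ((runs σ M).filter (fun l' => ¬ l' ≤ σ.l)).filter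
      (fun l' => ¬ σ.r + 1 ≤ l' + (M : ℤ) - 1), F l' =
      ∑ j ∈ Icc 1 (jj (sa σ) (sb σ)), ∑ k ∈ Icc 1 (jj (sc σ) (sb σ)),
        if j + k + M = m + 1 then ω 0 M 0 else 0 := by
    rw [← Finset.sum_product', ← Finset.sum_filter]
    apply Finset.sum_nbij' (fun l' => ((l' - σ.l).toNat, (σ.r + 2 - l' - M).toNat))
      (fun i => σ.l + (i.1 : ℤ))
    · intro l' hl'
      simp only [mem_filter, runs, mem_Icc, mem_product] at hl' ⊢
      omega
    · intro i hi
      simp only [mem_filter, runs, mem_Icc, mem_product] at hi ⊢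
      omega
    · intro l' hl'
      simp only [mem_filter, runs, mem_Icc] at hl'
      omega
    · intro i hi
      simp only [mem_filter, mem_Icc, mem_product] at hi
      ext
      · simp
      · simp only; omega
    · intro l' hl'
      simp only [mem_filter, runs, mem_Icc] at hl'
      rw [hFval, max_eq_left (by omega), min_eq_left (by omega)]
      congr 1 <;> omega
  rw [c1, c2, c3, c4]
  ring

end

end Pool.Agent.H91R3.DC
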