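import Pool.Agent.H91R3.DC5

set_option autoImplicit false

namespace Pool.Agent.H91R3.DC

noncomputable section

open Finset

def mm (L : List St) : ℕ := sa (hd L) + sb (hd L) + sc (hd L)

def AX (k b : ℕ) : ℤ := ∑ L ∈ LL k, if mm L + 1 = b then 1 else 0
def AY (k b : ℕ) : ℤ := ∑ L ∈ LL k, ∑ j ∈ Icc 1 (jj (sa (hd L)) (sb (hd L))),
  if j + b = mm L + 1 then 1 else 0
def AW (k b : ℕ) : ℤ := ∑ L ∈ LL k, ∑ j ∈ Icc 1 (jj (sc (hd L)) (sb (hd L))),
  if j + b = mm L + 1 then 1 else 0
def AZ (k b : ℕ) : ℤ := ∑ L ∈ LL k, ∑ j ∈ Icc 1 (jj (sa (hd L)) (sb (hd L))),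
  ∑ i ∈ Icc 1 (jj (sc (hd L)) (sb (hd L))), if j + i + b = mm L + 1 then 1 else 0

theorem jj_le (a b c : ℕ) : jj a b ≤ a + b + c := by
  unfold jj; split_ifs <;> omega

/-- the right-hand side of the recursion for one size `M` of the new run -/
def RR (ω : ℕ → ℕ → ℕ → ℤ) (M k : ℕ) : ℤ :=
  (∑ b ∈ range (M + 1), ((∑ i ∈ range (M - b + 1), ω i b (M - b - i)) * AX k b +
    ω 0 b (M - b) * AY k b + ω (M - b) b 0 * AW k b)) + ω 0 M 0 * AZ k M

theorem TT_eq (ω : ℕ → ℕ → ℕ → ℤ) (M a b c : ℕ) :
    TT ω M a b c = (∑ x ∈ range (M + 1), ((∑ i ∈ range (M - x + 1), ω i x (M - x - i)) *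
      (if a + b + c + 1 = x then 1 else 0) +
    ω 0 x (M - x) * (∑ j ∈ Icc 1 (jj a b), if j + x = a + b + c + 1 then 1 else 0) +
    ω (M - x) x 0 * (∑ j ∈ Icc 1 (jj c b), if j + x = a + b + c + 1 then 1 else 0))) +
    ω 0 M 0 * (∑ j ∈ Icc 1 (jj a b), ∑ i ∈ Icc 1 (jj c b),
      if j + i + M = a + b + c + 1 then 1 else 0) := by
  set m := a + b + c with hm
  have hj1 : jj a b ≤ m := by rw [hm]; exact jj_le a b c
  have hj2 : jj c b ≤ m := by
    have := jj_le c b a; omega
  unfold TT
  rw [← hm, Finset.sum_add_distrib, Finset.sum_add_distrib]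
  congr 1
  · congr 1
    · congr 1
      · simp only [mul_ite, mul_one, mul_zero]
        rw [Finset.sum_ite_eq]
        split_ifs with h
        · rw [mem_range] at h
          rw [show M - (m + 1) + 1 = M - m by omega]
          apply Finset.sum_congr rfl
          intro i _
          congr 1
        · rw [mem_range] at h
          rw [show M - m = 0 by omega]
          simp
      · simp only [Finset.mul_sum, mul_ite, mul_one, mul_zero]
        rw [Finset.sum_comm]
        apply Finset.sum_congr rfl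
        intro j hj
        rw [mem_Icc] at hj
        have : ∀ x, (if j + x = m + 1 then ω 0 x (M - x) else 0) =
            if m + 1 - j = x then ω 0 x (M - x) else 0 := by
          intro x
          congr 1
          apply propext
          omega
        simp only [this]
        rw [Finset.sum_ite_eq]
        by_cases h : m + 1 ≤ M + j
        · rw [if_pos h, if_pos (by rw [mem_range]; omega)]
          congr 1; omega
        · rw [if_neg h, if_neg (by rw [mem_range]; omega)]
    · simp only [Finset.mul_sum, mul_ite, mul_one, mul_zero]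
      rw [Finset.sum_comm]
      apply Finset.sum_congr rfl
      intro j hj
      rw [mem_Icc] at hj
      have : ∀ x, (if j + x = m + 1 then ω (M - x) x 0 else 0) =
          if m + 1 - j = x then ω (M - x) x 0 else 0 := by
        intro x
        congr 1
        apply propext
        omega
      simp only [this]
      rw [Finset.sum_ite_eq]
      by_cases h : m + 1 ≤ M + j
      · rw [if_pos h, if_pos (by rw [mem_range]; omega)]
        congr 1; omega
      · rw [if_neg h, if_neg (by rw [mem_range]; omega)]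
  · simp only [Finset.mul_sum, mul_ite, mul_one, mul_zero]

theorem sum_TT (ω : ℕ → ℕ → ℕ → ℤ) (M k : ℕ) :
    ∑ L ∈ LL k, TT ω M (sa (hd L)) (sb (hd L)) (sc (hd L)) = RR ω M k := by
  unfold RR AX AY AW AZ
  simp only [TT_eq]
  rw [Finset.sum_add_distrib, Finset.sum_comm]
  congr 1
  · apply Finset.sum_congr rfl
    intro x _
    rw [Finset.sum_add_distrib, Finset.sum_add_distrib, ← Finset.mul_sum, ← Finset.mul_sum,
      ← Finset.mul_sum]
    rfl
  · rw [← Finset.mul_sum]
    rfl

def EE (n : ℕ) (ω : ℕ → ℕ → ℕ → ℤ) : ℤ :=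
  ∑ L ∈ LL n, ω (sa (hd L)) (sb (hd L)) (sc (hd L))

theorem EE_eq (n : ℕ) (ω : ℕ → ℕ → ℕ → ℤ) :
    EE n ω = (if n = 0 then 0 else ω 0 1 (n - 1)) + ∑ M ∈ Icc 1 n, RR ω M (n - M) := by
  unfold EE
  rw [sum_LL]
  congr 1
  · split_ifs with h
    · rfl
    · have e1 : sa (hd [initSt ((n : ℤ) - 1)]) = 0 := by simp [sa, hd, initSt]
      have e2 : sb (hd [initSt ((n : ℤ) - 1)]) = 1 := by simp [sb, hd, initSt]
      have e3 : sc (hd [initSt ((n : ℤ) - 1)]) = n - 1 := by simp [sc, hd, initSt]
      rw [e1, e2, e3]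
  · rw [show ∑ M ∈ Icc 1 n, RR ω M (n - M) = ∑ k ∈ range n, RR ω (n - k) k by
      apply Finset.sum_nbij' (fun M => n - M) (fun k => n - k)
      · intro M hM; rw [mem_Icc] at hM; rw [mem_range]; omega
      · intro k hk; rw [mem_range] at hk; rw [mem_Icc]; omega
      · intro M hM; rw [mem_Icc] at hM; omega
      · intro k hk; rw [mem_range] at hk; omega
      · intro M hM
        rw [mem_Icc] at hM
        congr 1
        omega]
    apply Finset.sum_congr rfl
    intro k hk
    rw [mem_range] at hk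
    rw [← sum_TT]
    apply Finset.sum_congr rfl
    intro L hL
    rw [mem_LL] at hL
    match L, hL with
    | σ :: K, hL =>
      rw [← trans (σ := hd (σ :: K)) (by exact hL.1.wf) ω (by omega)]
      rfl

theorem mm_pos {k : ℕ} {L : List St} (h : L ∈ LL k) : 1 ≤ sb (hd L) := by
  rw [mem_LL] at h
  match L, h with
  | σ :: K, h =>
    obtain ⟨a1, a2, a3⟩ := h.1.wf
    show 1 ≤ (σ.t - σ.s + 1).toNat
    omega

theorem AX_zero (k : ℕ) : AX k 0 = 0 := by
  unfold AX
  apply Finset.sum_eq_zero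
  intro L _
  simp

theorem AX_one (k : ℕ) : AX k 1 = 0 := by
  unfold AX
  apply Finset.sum_eq_zero
  intro L hL
  have := mm_pos hL
  unfold mm
  rw [if_neg (by omega)]

theorem AY_zero (k : ℕ) : AY k 0 = 0 := by
  unfold AY
  apply Finset.sum_eq_zero
  intro L hL
  apply Finset.sum_eq_zero
  intro j hj
  rw [mem_Icc] at hj
  have := jj_le (sa (hd L)) (sb (hd L)) (sc (hd L))
  unfold mm
  rw [if_neg (by omega)]

theorem AW_zero (k : ℕ) : AW k 0 = 0 := by
  unfold AW
  apply Finset.sum_eq_zero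
  intro L hL
  apply Finset.sum_eq_zero
  intro j hj
  rw [mem_Icc] at hj
  have := jj_le (sc (hd L)) (sb (hd L)) (sa (hd L))
  unfold mm
  rw [if_neg (by omega)]

end

end Pool.Agent.H91R3.DC
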