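import Pool.Agent.H91R3.DC6

set_option autoImplicit false

namespace Pool.Agent.H91R3.DC

noncomputable section

open Finset

def oX (β a b c : ℕ) : ℤ := if a + b + c = β then 1 else 0
def oY (β a b c : ℕ) : ℤ := ∑ j ∈ Icc 1 (jj a b), if j + β = a + b + c + 1 then 1 else 0
def oW (β a b c : ℕ) : ℤ := ∑ j ∈ Icc 1 (jj c b), if j + β = a + b + c + 1 then 1 else 0
def oZ (β a b c : ℕ) : ℤ := ∑ j ∈ Icc 1 (jj a b), ∑ i ∈ Icc 1 (jj c b),
  if j + i + β = a + b + c + 1 then 1 else 0

theorem AX_eq (n β : ℕ) : AX n (β + 1) = EE n (oX β) := by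
  unfold AX EE oX mm
  apply Finset.sum_congr rfl
  intro L _
  congr 1
  apply propext
  omega
theorem AY_eq (n β : ℕ) : AY n β = EE n (oY β) := rfl
theorem AW_eq (n β : ℕ) : AW n β = EE n (oW β) := rfl
theorem AZ_eq (n β : ℕ) : AZ n β = EE n (oZ β) := rfl

theorem oY_zero (β b c : ℕ) : oY β 0 b c = if c + 1 ≤ β ∧ β ≤ b + c then 1 else 0 := by
  unfold oY
  rw [show jj 0 b = b by simp [jj]]
  split_ifs with h
  · rw [Finset.sum_eq_single (b + c + 1 - β)]
    · rw [if_pos (by omega)]
    · intro j _ hne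
      rw [if_neg (by omega)]
    · intro hn
      rw [mem_Icc] at hn
      omega
  · apply Finset.sum_eq_zero
    intro j hj
    rw [mem_Icc] at hj
    rw [if_neg (by omega)]

theorem oY_pos (β a b c : ℕ) (ha : 0 < a) : oY β a b c = if β = a + b + c then 1 else 0 := by
  unfold oY
  rw [show jj a b = 1 by simp [jj, ha]]
  simp only [Icc_self, sum_singleton]
  congr 1
  apply propext
  omega

theorem oW_eq (β a b c : ℕ) : oW β a b c = oY β c b a := by
  unfold oW oY
  apply Finset.sum_congr rfl
  intro j _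
  congr 1
  apply propext
  omega

theorem oZ_pp (β a b c : ℕ) (ha : 0 < a) (hc : 0 < c) :
    oZ β a b c = if β + 1 = a + b + c then 1 else 0 := by
  unfold oZ
  rw [show jj a b = 1 by simp [jj, ha], show jj c b = 1 by simp [jj, hc]]
  simp only [Icc_self, sum_singleton]
  congr 1
  apply propext
  omega

theorem oZ_zp (β b c : ℕ) (hc : 0 < c) :
    oZ β 0 b c = if c ≤ β ∧ β + 1 ≤ b + c then 1 else 0 := by
  unfold oZ
  rw [show jj 0 b = b by simp [jj], show jj c b = 1 by simp [jj, hc]]
  simp only [Icc_self, sum_singleton]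
  split_ifs with h
  · rw [Finset.sum_eq_single (b + c - β)]
    · rw [if_pos (by omega)]
    · intro j _ hne
      rw [if_neg (by omega)]
    · intro hn
      rw [mem_Icc] at hn
      omega
  · apply Finset.sum_eq_zero
    intro j hj
    rw [mem_Icc] at hj
    rw [if_neg (by omega)]

theorem oZ_symm (β a b c : ℕ) : oZ β a b c = oZ β c b a := by
  unfold oZ
  rw [Finset.sum_comm]
  apply Finset.sum_congr rfl
  intro j _
  apply Finset.sum_congr rfl
  intro i _
  congr 1
  apply propext
  omega

theorem oZ_zz (β b : ℕ) (hβ : 0 < β) : oZ β 0 b 0 = ((b - β : ℕ) : ℤ) := by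
  unfold oZ
  rw [show jj 0 b = b by simp [jj]]
  have h1 : ∀ j ∈ Icc 1 b, (∑ i ∈ Icc 1 b, if j + i + β = 0 + b + 0 + 1 then (1 : ℤ) else 0) =
      if j + β ≤ b then 1 else 0 := by
    intro j hj
    rw [mem_Icc] at hj
    split_ifs with h
    · rw [Finset.sum_eq_single (b + 1 - β - j)]
      · rw [if_pos (by omega)]
      · intro i _ hne
        rw [if_neg (by omega)]
      · intro hn
        rw [mem_Icc] at hn
        omega
    · apply Finset.sum_eq_zero
      intro i hi
      rw [mem_Icc] at hi
      rw [if_neg (by omega)]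
  rw [Finset.sum_congr rfl h1, ← Finset.sum_filter]
  have : (Icc 1 b).filter (fun j => j + β ≤ b) = Icc 1 (b - β) := by
    ext j
    simp only [mem_filter, mem_Icc]
    omega
  rw [this]
  simp

/-- indicator -/
def ind (p : Prop) [Decidable p] : ℤ := if p then 1 else 0

theorem RR_oX (β M k : ℕ) : RR (oX β) M k = if M = β then
    (∑ b ∈ range (M + 1), (((M - b + 1 : ℕ) : ℤ) * AX k b + AY k b + AW k b)) + AZ k M else 0 := by
  unfold RR
  split_ifs with h
  · subst h
    congr 1
    · apply Finset.sum_congr rfl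
      intro b hb
      rw [mem_range] at hb
      congr 1
      · congr 1
        · congr 1
          rw [Finset.sum_congr rfl (g := fun _ => (1 : ℤ))]
          · simp
          · intro i hi
            rw [mem_range] at hi
            unfold oX
            rw [if_pos (by omega)]
        · unfold oX
          rw [if_pos (by omega)]; ring
      · unfold oX
        rw [if_pos (by omega)]; ring
    · unfold oX
      rw [if_pos (by omega)]; ring
  · rw [Finset.sum_eq_zero]
    · unfold oX
      rw [if_neg (by omega)]; ring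
    · intro b hb
      rw [mem_range] at hb
      rw [Finset.sum_eq_zero]
      · unfold oX
        rw [if_neg (by omega), if_neg (by omega)]; ring
      · intro i hi
        rw [mem_range] at hi
        unfold oX
        rw [if_neg (by omega)]

theorem sum_oY (β M b : ℕ) (hb : b ≤ M) : ∑ i ∈ range (M - b + 1), oY β i b (M - b - i) =
    ind (M + 1 ≤ β + b ∧ β ≤ M) + ((M - b : ℕ) : ℤ) * ind (β = M) := by
  rw [Finset.sum_range_succ', add_comm]
  congr 1
  · rw [oY_zero]
    unfold ind
    congr 1
    apply propext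
    omega
  · rw [Finset.sum_congr rfl (g := fun _ => ind (β = M))]
    · simp
    · intro i hi
      rw [mem_range] at hi
      rw [oY_pos _ _ _ _ (by omega)]
      unfold ind
      congr 1
      apply propext
      omega

theorem RR_oY (β M k : ℕ) (hβ : 0 < β) : RR (oY β) M k =
    (∑ b ∈ range (M + 1), ((ind (M + 1 ≤ β + b ∧ β ≤ M) + ((M - b : ℕ) : ℤ) * ind (β = M)) * AX k b +
      ind (M + 1 ≤ β + b ∧ β ≤ M) * AY k b +
      (if b < M then ind (β = M) else ind (β ≤ M)) * AW k b)) +
    ind (β ≤ M) * AZ k M := by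
  unfold RR
  congr 1
  · apply Finset.sum_congr rfl
    intro b hb
    rw [mem_range] at hb
    congr 1
    · congr 1
      · rw [sum_oY _ _ _ (by omega)]
      · rw [oY_zero]
        unfold ind
        congr 2
        apply propext
        omega
    · congr 1
      split_ifs with h
      · rw [oY_pos _ _ _ _ (by omega)]
        unfold ind
        congr 1
        apply propext
        omega
      · rw [show M - b = 0 by omega, oY_zero]
        unfold ind
        congr 1
        apply propext
        omega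
  · rw [oY_zero]
    unfold ind
    congr 2
    apply propext
    omega

theorem RR_oW (β M k : ℕ) (hβ : 0 < β) : RR (oW β) M k =
    (∑ b ∈ range (M + 1), ((ind (M + 1 ≤ β + b ∧ β ≤ M) + ((M - b : ℕ) : ℤ) * ind (β = M)) * AX k b +
      ind (M + 1 ≤ β + b ∧ β ≤ M) * AW k b +
      (if b < M then ind (β = M) else ind (β ≤ M)) * AY k b)) +
    ind (β ≤ M) * AZ k M := by
  unfold RR
  congr 1
  · apply Finset.sum_congr rfl
    intro b hb
    rw [mem_range] at hb
    rw [← sum_oY _ _ _ (by omega : b ≤ M)]
    have e1 : ∑ i ∈ range (M - b + 1), oW β i b (M - b - i) =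
        ∑ i ∈ range (M - b + 1), oY β i b (M - b - i) := by
      rw [← Finset.sum_range_reflect]
      apply Finset.sum_congr rfl
      intro i hi
      rw [mem_range] at hi
      rw [oW_eq]
      congr 1 <;> omega
    have e2 : oW β 0 b (M - b) = (if b < M then ind (β = M) else ind (β ≤ M)) := by
      rw [oW_eq]
      split_ifs with h
      · rw [oY_pos _ _ _ _ (by omega)]
        unfold ind
        congr 1
        apply propext
        omega
      · rw [show M - b = 0 by omega, oY_zero]
        unfold ind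
        congr 1
        apply propext
        omega
    have e3 : oW β (M - b) b 0 = ind (M + 1 ≤ β + b ∧ β ≤ M) := by
      rw [oW_eq, oY_zero]
      unfold ind
      congr 1
      apply propext
      omega
    rw [e1, e2, e3]
    ring
  · rw [oW_eq, oY_zero]
    unfold ind
    congr 2
    apply propext
    omega

theorem sum_oZ (β M b : ℕ) (hb : b < M) (hβ : 0 < β) :
    ∑ i ∈ range (M - b + 1), oZ β i b (M - b - i) =
    2 * ind (M ≤ β + b ∧ β + 1 ≤ M) + ((M - b - 1 : ℕ) : ℤ) * ind (β + 1 = M) := by
  obtain ⟨d, hd⟩ : ∃ d, M - b = d + 1 := ⟨M - b - 1, by omega⟩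
  rw [hd, Finset.sum_range_succ', Finset.sum_range_succ]
  have e1 : oZ β (d + 1) b (d + 1 - (d + 1)) = ind (M ≤ β + b ∧ β + 1 ≤ M) := by
    rw [oZ_symm, show d + 1 - (d + 1) = 0 by omega, oZ_zp _ _ _ (by omega)]
    unfold ind
    congr 1
    apply propext
    omega
  have e2 : oZ β 0 b (d + 1 - 0) = ind (M ≤ β + b ∧ β + 1 ≤ M) := by
    rw [oZ_zp _ _ _ (by omega)]
    unfold ind
    congr 1
    apply propext
    omega
  have e3 : ∑ x ∈ range d, oZ β (x + 1) b (d + 1 - (x + 1)) = (d : ℤ) * ind (β + 1 = M) := by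
    rw [Finset.sum_congr rfl (g := fun _ => ind (β + 1 = M))]
    · simp
    · intro i hi
      rw [mem_range] at hi
      rw [oZ_pp _ _ _ _ (by omega) (by omega)]
      unfold ind
      congr 1
      apply propext
      omega
  rw [e1, e2, e3, show d + 1 - 1 = d by omega]
  ring

theorem RR_oZ (β M k : ℕ) (hβ : 0 < β) (hM : 0 < M) : RR (oZ β) M k =
    (∑ b ∈ range M, ((2 * ind (M ≤ β + b ∧ β + 1 ≤ M) +
        ((M - b - 1 : ℕ) : ℤ) * ind (β + 1 = M)) * AX k b +
      ind (M ≤ β + b ∧ β + 1 ≤ M) * (AY k b + AW k b))) +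
    ((M - β : ℕ) : ℤ) * (AX k M + AY k M + AW k M + AZ k M) := by
  unfold RR
  rw [Finset.sum_range_succ, oZ_zz _ _ hβ]
  have e0 : (∑ i ∈ range (M - M + 1), oZ β i M (M - M - i)) = ((M - β : ℕ) : ℤ) := by
    rw [show M - M = 0 by omega]
    simp only [zero_add, range_one, sum_singleton]
    rw [← oZ_zz _ _ hβ]
  rw [e0, show M - M = 0 by omega, oZ_zz _ _ hβ]
  have e1 : ∑ x ∈ range M, ((∑ i ∈ range (M - x + 1), oZ β i x (M - x - i)) * AX k x +
      oZ β 0 x (M - x) * AY k x + oZ β (M - x) x 0 * AW k x) =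
      ∑ b ∈ range M, ((2 * ind (M ≤ β + b ∧ β + 1 ≤ M) +
        ((M - b - 1 : ℕ) : ℤ) * ind (β + 1 = M)) * AX k b +
      ind (M ≤ β + b ∧ β + 1 ≤ M) * (AY k b + AW k b)) := by
    apply Finset.sum_congr rfl
    intro b hb
    rw [mem_range] at hb
    have e2 : oZ β 0 b (M - b) = ind (M ≤ β + b ∧ β + 1 ≤ M) := by
      rw [oZ_zp _ _ _ (by omega)]
      unfold ind
      congr 1
      apply propext
      omega
    rw [sum_oZ _ _ _ hb hβ, oZ_symm β (M - b), e2]
    ring
  rw [e1]
  ring

end

end Pool.Agent.H91R3.DC
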