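import Mathlib

set_option autoImplicit false

namespace Pool.Agent.H91R3.DC

open PowerSeries

/-- `PS` is the ring `ℤ⟦q⟧`; the unknown series lie in `PS⟦y⟧ = ℤ⟦q⟧⟦y⟧`. -/
abbrev PS : Type := PowerSeries ℤ

/-- the variable `q` of `ℤ⟦q⟧` -/
noncomputable def qq : PS := PowerSeries.X

/-- the variable `y` of `ℤ⟦q⟧⟦y⟧` -/
noncomputable def yy : PowerSeries PS := PowerSeries.X

/-- the series `1 / (1 - a y) = ∑ aⁿ yⁿ` -/
noncomputable def geo (a : PS) : PowerSeries PS := PowerSeries.mk fun n => a ^ n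

/-- the value `F(q) = ∑ F_k q^k` of `F(y) = ∑ F_k y^k` at `y = q` -/
noncomputable def atq (F : PowerSeries PS) : PS :=
  PowerSeries.mk fun n => ∑ k ∈ Finset.range (n + 1), coeff (n - k) (coeff k F)

/-- the value `∑ k F_k q^k` of `y ∂F/∂y` at `y = q` -/
noncomputable def datq (F : PowerSeries PS) : PS :=
  PowerSeries.mk fun n => ∑ k ∈ Finset.range (n + 1), (k : ℤ) * coeff (n - k) (coeff k F)

/-- the substitution `F(y) ↦ F(q y)` -/
noncomputable def sq (F : PowerSeries PS) : PowerSeries PS := rescale qq F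

/-- The three `q`-functional equations for `X(y), Y(y), Z(y)`, with `u = q y`, `G = 1/(1 - q y)`,
`H = 1/(1 - y)`, `T = X + 2 Y + Z`:
`X(y) = y (u G + G² X(qy) + 2 G Y(qy) + Z(qy))`,
`Y(y) = u G (1 + G X(qy) + Y(qy))
        + y H (G (X(q) + Y(q) - X(qy) - Y(qy)) + Y(q) + Z(q) - Y(qy) - Z(qy))`,
`Z(y) = q u G (1 + G X(qy)) + 2 u G H (X(q) + Y(q) - X(qy) - Y(qy))
        + y H² ((1 - y) q T'(q) - T(q) + T(qy))`. -/
def System (X Y Z : PowerSeries PS) : Prop :=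
  X = yy * (C qq * yy * geo qq + geo qq ^ 2 * sq X + 2 * geo qq * sq Y + sq Z) ∧
  Y = C qq * yy * geo qq * (1 + geo qq * sq X + sq Y) +
    yy * geo 1 * (geo qq * (C (atq X + atq Y) - sq X - sq Y) + (C (atq Y + atq Z) - sq Y - sq Z)) ∧
  Z = C qq * (C qq * yy) * geo qq * (1 + geo qq * sq X) +
    2 * (C qq * yy) * geo qq * geo 1 * (C (atq X + atq Y) - sq X - sq Y) +
    yy * geo 1 ^ 2 * ((1 - yy) * C (datq (X + 2 * Y + Z)) - C (atq (X + 2 * Y + Z)) +
      sq (X + 2 * Y + Z))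

end Pool.Agent.H91R3.DC
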