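import Pool.Agent.H91R3.DC7
import Pool.Agent.H91R3.DCSys

set_option autoImplicit false

namespace Pool.Agent.H91R3.DC

noncomputable section

open PowerSeries Finset

/-- coefficient of `q^n y^b` -/
def cf (n b : ℕ) (F : PowerSeries PS) : ℤ := coeff n (coeff b F)

theorem cf_add (n b : ℕ) (F G : PowerSeries PS) : cf n b (F + G) = cf n b F + cf n b G := by
  simp [cf]
theorem cf_sub (n b : ℕ) (F G : PowerSeries PS) : cf n b (F - G) = cf n b F - cf n b G := by
  simp [cf]

theorem cf_ext {F G : PowerSeries PS} (h : ∀ n b, cf n b F = cf n b G) : F = G := by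
  ext b n
  exact h n b

def PP (A : ℕ → ℕ → ℤ) : PowerSeries PS := PowerSeries.mk fun b => PowerSeries.mk fun n => A n b

theorem cf_PP (A : ℕ → ℕ → ℤ) (n b : ℕ) : cf n b (PP A) = A n b := by
  simp [cf, PP, coeff_mk]

theorem cf_sq (F : PowerSeries PS) (n b : ℕ) :
    cf n b (sq F) = if b ≤ n then cf (n - b) b F else 0 := by
  unfold cf sq qq
  rw [coeff_rescale, coeff_X_pow_mul']

theorem cf_H (F : PowerSeries PS) (n b : ℕ) :
    cf n b (geo 1 * F) = ∑ i ∈ range (b + 1), cf n i F := by
  unfold cf geo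
  rw [mul_comm, coeff_mul, Finset.Nat.sum_antidiagonal_eq_sum_range_succ_mk]
  rw [map_sum]
  apply Finset.sum_congr rfl
  intro i _
  simp

theorem cf_y_succ (F : PowerSeries PS) (n b : ℕ) : cf n (b + 1) (yy * F) = cf n b F := by
  unfold cf yy
  rw [coeff_succ_X_mul]
theorem cf_y_zero (F : PowerSeries PS) (n : ℕ) : cf n 0 (yy * F) = 0 := by
  unfold cf yy
  rw [coeff_zero_X_mul]; simp

theorem cf_q_succ (F : PowerSeries PS) (n b : ℕ) : cf (n + 1) b (C qq * F) = cf n b F := by
  unfold cf qq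
  rw [coeff_C_mul, coeff_succ_X_mul]
theorem cf_q_zero (F : PowerSeries PS) (b : ℕ) : cf 0 b (C qq * F) = 0 := by
  unfold cf qq
  rw [coeff_C_mul, coeff_zero_X_mul]

theorem cf_GC (κ : PS) (n b : ℕ) :
    cf n b (geo qq * C κ) = if b ≤ n then coeff (n - b) κ else 0 := by
  unfold cf geo qq
  rw [coeff_mul_C, coeff_mk, coeff_X_pow_mul']

theorem cf_C (κ : PS) (n b : ℕ) : cf n b (C κ) = if b = 0 then coeff n κ else 0 := by
  unfold cf
  rw [PowerSeries.coeff_C]
  split_ifs <;> simp

theorem cf_one (n b : ℕ) : cf n b 1 = if b = 0 ∧ n = 0 then 1 else 0 := by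
  unfold cf
  rw [PowerSeries.coeff_one]
  split_ifs with h1 h2 h2
  · rw [PowerSeries.coeff_one, if_pos h2.2]
  · rw [PowerSeries.coeff_one, if_neg (by tauto)]
  · tauto
  · simp

theorem sq_mul (F G : PowerSeries PS) : sq (F * G) = sq F * sq G := by simp [sq]
theorem sq_add (F G : PowerSeries PS) : sq (F + G) = sq F + sq G := by simp [sq]
theorem sq_one : sq (1 : PowerSeries PS) = 1 := by simp [sq]
theorem sq_yy : sq yy = C qq * yy := by
  unfold sq yy; rw [rescale_X]
theorem sq_H : sq (geo 1) = geo qq := by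
  unfold sq geo
  ext1 n
  rw [coeff_rescale]
  simp

theorem H_mul : geo 1 * (1 - yy) = 1 := by
  apply cf_ext
  intro n b
  rw [cf_H, cf_one]
  have h : ∀ i, cf n i (1 - yy) = (if i = 0 ∧ n = 0 then 1 else 0) -
      (if i = 1 ∧ n = 0 then 1 else 0) := by
    intro i
    rw [cf_sub, cf_one]
    congr 1
    unfold cf yy
    rw [PowerSeries.coeff_X]
    split_ifs with h1 h2 h2
    · rw [PowerSeries.coeff_one, if_pos h2.2]
    · rw [PowerSeries.coeff_one, if_neg (by tauto)]
    · tauto
    · simp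
  simp only [h]
  rw [Finset.sum_sub_distrib]
  by_cases hn : n = 0
  · subst hn
    simp only [and_true]
    rw [Finset.sum_ite_eq', Finset.sum_ite_eq']
    by_cases hb : b = 0
    · subst hb; simp
    · rw [if_pos (by simp), if_pos (by rw [mem_range]; omega), if_neg hb]
      ring
  · simp [hn]

theorem coeff_atq (F : PowerSeries PS) (n : ℕ) :
    coeff n (atq F) = ∑ k ∈ range (n + 1), cf (n - k) k F := by
  unfold atq cf
  rw [coeff_mk]

theorem coeff_datq (F : PowerSeries PS) (n : ℕ) :
    coeff n (datq F) = ∑ k ∈ range (n + 1), (k : ℤ) * cf (n - k) k F := by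
  unfold datq cf
  rw [coeff_mk]

theorem atq_add (F G : PowerSeries PS) : atq (F + G) = atq F + atq G := by
  ext n
  rw [map_add, coeff_atq, coeff_atq, coeff_atq, ← Finset.sum_add_distrib]
  apply Finset.sum_congr rfl
  intro k _
  rw [cf_add]

/-- double sum swap -/
theorem dsum (F : ℕ → ℕ → ℤ) (n β : ℕ) :
    ∑ i ∈ range (β + 1), (if i ≤ n then (∑ b ∈ range (n - i + 1), F (n - i - b) b) -
      ∑ b ∈ range (i + 1), F (n - i) b else 0) =
    ∑ M ∈ Icc 1 n, ∑ b ∈ range (M + 1), ind (M + 1 ≤ β + 1 + b ∧ β + 1 ≤ M) * F (n - M) b := by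
  have e1 : ∑ i ∈ range (β + 1), (if i ≤ n then (∑ b ∈ range (n - i + 1), F (n - i - b) b) -
      ∑ b ∈ range (i + 1), F (n - i) b else 0) =
      (∑ i ∈ range (β + 1), if i ≤ n then (∑ b ∈ range (n - i + 1), F (n - i - b) b) else 0) -
      ∑ i ∈ range (β + 1), if i ≤ n then ∑ b ∈ range (i + 1), F (n - i) b else 0 := by
    rw [← Finset.sum_sub_distrib]
    apply Finset.sum_congr rfl
    intro i _
    split_ifs <;> ring
  have e2 : (∑ i ∈ range (β + 1), if i ≤ n then (∑ b ∈ range (n - i + 1), F (n - i - b) b) else 0) =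
      ∑ M ∈ range (n + 1), ∑ b ∈ range (M + 1), if M ≤ β + b then F (n - M) b else 0 := by
    rw [← Finset.sum_filter, Finset.sum_sigma']
    have : ∀ M ∈ range (n + 1), ∑ b ∈ range (M + 1), (if M ≤ β + b then F (n - M) b else 0) =
        ∑ b ∈ (range (M + 1)).filter (fun b => M ≤ β + b), F (n - M) b := by
      intro M _
      rw [Finset.sum_filter]
    rw [Finset.sum_congr rfl this, Finset.sum_sigma']
    apply Finset.sum_nbij' (fun p => (⟨p.1 + p.2, p.2⟩ : (_ : ℕ) × ℕ))
      (fun p => (⟨p.1 - p.2, p.2⟩ : (_ : ℕ) × ℕ))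
    · rintro ⟨i, b⟩ h
      simp only [mem_sigma, mem_filter, mem_range] at h ⊢
      omega
    · rintro ⟨i, b⟩ h
      simp only [mem_sigma, mem_filter, mem_range] at h ⊢
      omega
    · rintro ⟨i, b⟩ h
      simp
    · rintro ⟨i, b⟩ h
      simp only [mem_sigma, mem_filter, mem_range] at h
      simp only [Sigma.mk.injEq, heq_eq_eq, and_true]
      omega
    · rintro ⟨i, b⟩ h
      simp only [mem_sigma, mem_filter, mem_range] at h
      simp only
      congr 1
      omega
  have e3 : (∑ i ∈ range (β + 1), if i ≤ n then ∑ b ∈ range (i + 1), F (n - i) b else 0) =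
      ∑ M ∈ range (n + 1), ∑ b ∈ range (M + 1), if M ≤ β then F (n - M) b else 0 := by
    have h1 : ∀ M ∈ range (n + 1), (∑ b ∈ range (M + 1), if M ≤ β then F (n - M) b else 0) =
        if M ≤ β then ∑ b ∈ range (M + 1), F (n - M) b else 0 := by
      intro M _
      split_ifs <;> simp
    rw [Finset.sum_congr rfl h1, ← Finset.sum_filter, ← Finset.sum_filter]
    apply Finset.sum_congr
    · ext i
      simp only [mem_filter, mem_range]
      omega
    · intro i _; rfl
  rw [e1, e2, e3, ← Finset.sum_sub_distrib, Finset.sum_range_succ']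
  have e4 : ((∑ b ∈ range (0 + 1), if 0 ≤ β + b then F (n - 0) b else 0) -
      ∑ b ∈ range (0 + 1), if 0 ≤ β then F (n - 0) b else 0) = 0 := by simp
  rw [e4, add_zero]
  rw [show Icc 1 n = (range n).image (fun k => k + 1) by
    ext M
    simp only [mem_Icc, mem_image, mem_range]
    constructor
    · intro h; exact ⟨M - 1, by omega, by omega⟩
    · rintro ⟨k, hk, rfl⟩; omega]
  rw [Finset.sum_image (by intro a _ b _ h; simpa using h)]
  apply Finset.sum_congr rfl
  intro M _
  rw [← Finset.sum_sub_distrib]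
  apply Finset.sum_congr rfl
  intro b hb
  rw [mem_range] at hb
  unfold ind
  by_cases h1 : M + 1 ≤ β
  · rw [if_pos (by omega), if_pos h1, if_neg (by omega)]; ring
  · by_cases h2 : M + 1 ≤ β + b
    · rw [if_pos h2, if_neg h1, if_pos (by omega)]; ring
    · rw [if_neg h2, if_neg h1, if_neg (by omega)]; ring

theorem tsum1 (F : ℕ → ℕ → ℤ) (n β : ℕ) :
    (∑ b ∈ range (n + 1), F (n - b) b) - ∑ i ∈ range (β + 1), (if i ≤ n then F (n - i) i else 0) =
    ∑ M ∈ Icc 1 n, ind (β + 1 ≤ M) * F (n - M) M := by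
  have e3 : ∑ i ∈ range (β + 1), (if i ≤ n then F (n - i) i else 0) =
      ∑ i ∈ range (n + 1), if i ≤ β then F (n - i) i else 0 := by
    rw [← Finset.sum_filter, ← Finset.sum_filter]
    apply Finset.sum_congr
    · ext i
      simp only [mem_filter, mem_range]
      omega
    · intro i _; rfl
  rw [e3, ← Finset.sum_sub_distrib, Finset.sum_range_succ']
  have e4 : (F (n - 0) 0 - if 0 ≤ β then F (n - 0) 0 else 0) = 0 := by simp
  rw [e4, add_zero]
  rw [show Icc 1 n = (range n).image (fun k => k + 1) by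
    ext M
    simp only [mem_Icc, mem_image, mem_range]
    constructor
    · intro h; exact ⟨M - 1, by omega, by omega⟩
    · rintro ⟨k, hk, rfl⟩; omega]
  rw [Finset.sum_image (by intro a _ b _ h; simpa using h)]
  apply Finset.sum_congr rfl
  intro M _
  unfold ind
  by_cases h1 : M + 1 ≤ β
  · rw [if_pos h1, if_neg (by omega)]; ring
  · rw [if_neg h1, if_pos (by omega)]; ring

theorem diag (g : ℕ → ℤ) (β : ℕ) : ∑ b ∈ range (β + 2), ((β + 1 - b : ℕ) : ℤ) * g b =
    ∑ i ∈ range (β + 1), ∑ b ∈ range (i + 1), g b := by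
  induction β with
  | zero =>
    simp [Finset.sum_range_succ]
  | succ β ih =>
    rw [Finset.sum_range_succ (n := β + 1), ← ih, Finset.sum_range_succ, Nat.sub_self]
    simp only [Nat.cast_zero, zero_mul, add_zero]
    rw [← Finset.sum_add_distrib]
    apply Finset.sum_congr rfl
    intro b hb
    rw [mem_range] at hb
    have : ((β + 1 + 1 - b : ℕ) : ℤ) = ((β + 1 - b : ℕ) : ℤ) + 1 := by omega
    rw [this]
    ring

end

end Pool.Agent.H91R3.DC
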