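import Pool.Agent.H91R3.DC8

set_option autoImplicit false

namespace Pool.Agent.H91R3.DC

noncomputable section

open PowerSeries Finset

def AZ' (k b : ℕ) : ℤ := if b = 0 then 0 else AZ k b

theorem cf_geo (n b : ℕ) : cf n b (geo 1) = if n = 0 then 1 else 0 := by
  rw [← mul_one (geo 1), cf_H]
  simp only [cf_one]
  by_cases h : n = 0
  · simp [h]
  · simp [h]

theorem E1 : PP AX = yy * sq (yy * geo 1 + geo 1 * (geo 1 * PP AX) + geo 1 * (PP AY + PP AW) +
    PP AZ') := by
  apply cf_ext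
  intro n b
  cases b with
  | zero => rw [cf_PP, cf_y_zero, AX_zero]
  | succ β =>
    rw [cf_PP, cf_y_succ, cf_sq]
    cases β with
    | zero =>
      rw [if_pos (Nat.zero_le _)]
      simp only [cf_add, cf_y_zero, cf_H, cf_PP, zero_add, AX_one, sum_range_one, AX_zero,
        AY_zero, AW_zero, AZ', if_true, add_zero]
    | succ β =>
      rw [AX_eq, EE_eq]
      have h1 : ∑ M ∈ Icc 1 n, RR (oX (β + 1)) M (n - M) = if β + 1 ≤ n then
          (∑ b ∈ range (β + 1 + 1), (((β + 1 - b + 1 : ℕ) : ℤ) * AX (n - (β + 1)) b +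
            AY (n - (β + 1)) b + AW (n - (β + 1)) b)) + AZ (n - (β + 1)) (β + 1) else 0 := by
        simp only [RR_oX]
        rw [Finset.sum_ite_eq']
        by_cases h : β + 1 ≤ n
        · rw [if_pos (by rw [mem_Icc]; omega), if_pos h]
        · rw [if_neg (by rw [mem_Icc]; omega), if_neg h]
      rw [h1]
      have h2 : (if n = 0 then 0 else oX (β + 1) 0 1 (n - 1)) = if n = β + 1 then 1 else 0 := by
        unfold oX
        split_ifs <;> first | rfl | omega
      rw [h2]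
      by_cases h : β + 1 ≤ n
      · rw [if_pos h, if_pos h]
        simp only [cf_add, cf_y_succ, cf_geo, cf_H, cf_PP]
        have h3 : ∑ b ∈ range (β + 1 + 1), (((β + 1 - b + 1 : ℕ) : ℤ) * AX (n - (β + 1)) b +
            AY (n - (β + 1)) b + AW (n - (β + 1)) b) =
            (∑ i ∈ range (β + 1 + 1), ∑ b ∈ range (i + 1), AX (n - (β + 1)) b) +
            ∑ b ∈ range (β + 1 + 1), (AY (n - (β + 1)) b + AW (n - (β + 1)) b) := by
          rw [← diag, Finset.sum_range_succ (n := β + 1 + 1), Nat.sub_self]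
          simp only [Nat.cast_zero, zero_mul, add_zero]
          rw [← Finset.sum_add_distrib]
          apply Finset.sum_congr rfl
          intro b hb
          rw [mem_range] at hb
          rw [show β + 1 - b + 1 = β + 1 + 1 - b by omega]
          ring
        rw [h3]
        have h4 : AZ' (n - (β + 1)) (β + 1) = AZ (n - (β + 1)) (β + 1) := by
          unfold AZ'; rw [if_neg (by omega)]
        rw [h4]
        have h5 : (if n = β + 1 then (1 : ℤ) else 0) = if n - (β + 1) = 0 then 1 else 0 := by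
          congr 1; apply propext; omega
        rw [h5]
        ring
      · rw [if_neg h, if_neg h, if_neg (by omega)]
        simp

theorem cf_block (A B : ℕ → ℕ → ℤ) (n β : ℕ) :
    cf n β (geo 1 * ((geo qq * C (atq (PP A)) - sq (geo 1 * PP A)) + (C (atq (PP B)) - sq (PP B)))) =
    (∑ M ∈ Icc 1 n, ∑ b ∈ range (M + 1), ind (M + 1 ≤ β + 1 + b ∧ β + 1 ≤ M) * A (n - M) b) +
    ∑ M ∈ Icc 1 n, ind (β + 1 ≤ M) * B (n - M) M := by
  rw [← dsum, ← tsum1, cf_H]
  have h1 : ∀ i ∈ range (β + 1), cf n i ((geo qq * C (atq (PP A)) - sq (geo 1 * PP A)) +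
      (C (atq (PP B)) - sq (PP B))) =
      (if i ≤ n then (∑ b ∈ range (n - i + 1), A (n - i - b) b) -
      ∑ b ∈ range (i + 1), A (n - i) b else 0) +
      ((if i = 0 then ∑ b ∈ range (n + 1), B (n - b) b else 0) -
        (if i ≤ n then B (n - i) i else 0)) := by
    intro i _
    rw [cf_add, cf_sub, cf_sub, cf_GC, cf_C, cf_sq, cf_sq, cf_H, coeff_atq, coeff_atq]
    simp only [cf_PP]
    congr 1
    split_ifs <;> ring
  rw [Finset.sum_congr rfl h1, Finset.sum_add_distrib, Finset.sum_sub_distrib]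
  congr 2
  simp

theorem cf_block0 (A : ℕ → ℕ → ℤ) (n β : ℕ) :
    cf n β (geo 1 * (geo qq * C (atq (PP A)) - sq (geo 1 * PP A))) =
    (∑ M ∈ Icc 1 n, ∑ b ∈ range (M + 1), ind (M + 1 ≤ β + 1 + b ∧ β + 1 ≤ M) * A (n - M) b) := by
  rw [← dsum, cf_H]
  apply Finset.sum_congr rfl
  intro i _
  rw [cf_sub, cf_GC, cf_sq, cf_H, coeff_atq]
  simp only [cf_PP]
  split_ifs <;> ring

theorem PP_add (A B : ℕ → ℕ → ℤ) : PP A + PP B = PP (fun k b => A k b + B k b) := by
  apply cf_ext
  intro n b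
  rw [cf_add, cf_PP, cf_PP, cf_PP]

theorem Yeq (A0 A1 A2 A3 : ℕ → ℕ → ℤ) (n β : ℕ) :
    (if n = β + 1 then (1 : ℤ) else 0) + ∑ M ∈ Icc 1 n,
      ((∑ b ∈ range (M + 1), ((ind (M + 1 ≤ β + 1 + b ∧ β + 1 ≤ M) +
        ((M - b : ℕ) : ℤ) * ind (β + 1 = M)) * A0 (n - M) b +
      ind (M + 1 ≤ β + 1 + b ∧ β + 1 ≤ M) * A1 (n - M) b +
      (if b < M then ind (β + 1 = M) else ind (β + 1 ≤ M)) * A2 (n - M) b)) +
    ind (β + 1 ≤ M) * A3 (n - M) M) =
    cf n (β + 1) (sq (yy * (geo 1 * (1 + geo 1 * PP A0 + PP A2))) +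
      yy * (geo 1 * ((geo qq * C (atq (PP A0 + PP A1)) - sq (geo 1 * (PP A0 + PP A1))) +
        (C (atq (PP A2 + PP A3)) - sq (PP A2 + PP A3))))) := by
  rw [PP_add A0 A1, PP_add A2 A3, cf_add, cf_y_succ, cf_block, cf_sq, cf_y_succ, cf_H]
  simp only [cf_add, cf_one, cf_H, cf_PP]
  have h1 : ∀ M ∈ Icc 1 n, ((∑ b ∈ range (M + 1), ((ind (M + 1 ≤ β + 1 + b ∧ β + 1 ≤ M) +
        ((M - b : ℕ) : ℤ) * ind (β + 1 = M)) * A0 (n - M) b +
      ind (M + 1 ≤ β + 1 + b ∧ β + 1 ≤ M) * A1 (n - M) b +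
      (if b < M then ind (β + 1 = M) else ind (β + 1 ≤ M)) * A2 (n - M) b)) +
    ind (β + 1 ≤ M) * A3 (n - M) M) =
      (∑ b ∈ range (M + 1), ind (M + 1 ≤ β + 1 + b ∧ β + 1 ≤ M) * (A0 (n - M) b + A1 (n - M) b)) +
      ind (β + 1 ≤ M) * (A2 (n - M) M + A3 (n - M) M) +
      (if β + 1 = M then (∑ b ∈ range (β + 1 + 1), ((β + 1 - b : ℕ) : ℤ) * A0 (n - (β + 1)) b) +
        ∑ b ∈ range (β + 1), A2 (n - (β + 1)) b else 0) := by
    intro M _
    rw [Finset.sum_range_succ, Finset.sum_range_succ (fun b => ind (M + 1 ≤ β + 1 + b ∧ β + 1 ≤ M) *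
      (A0 (n - M) b + A1 (n - M) b))]
    have h2 : ∑ x ∈ range M, ((ind (M + 1 ≤ β + 1 + x ∧ β + 1 ≤ M) +
        ((M - x : ℕ) : ℤ) * ind (β + 1 = M)) * A0 (n - M) x +
      ind (M + 1 ≤ β + 1 + x ∧ β + 1 ≤ M) * A1 (n - M) x +
      (if x < M then ind (β + 1 = M) else ind (β + 1 ≤ M)) * A2 (n - M) x) =
      (∑ x ∈ range M, ind (M + 1 ≤ β + 1 + x ∧ β + 1 ≤ M) * (A0 (n - M) x + A1 (n - M) x)) +
      ((∑ x ∈ range M, ((M - x : ℕ) : ℤ) * ind (β + 1 = M) * A0 (n - M) x) +
      ∑ x ∈ range M, ind (β + 1 = M) * A2 (n - M) x) := by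
      rw [← Finset.sum_add_distrib, ← Finset.sum_add_distrib]
      apply Finset.sum_congr rfl
      intro x hx
      rw [mem_range] at hx
      rw [if_pos hx]
      ring
    rw [h2, Nat.sub_self, if_neg (lt_irrefl M)]
    by_cases h3 : β + 1 = M
    · subst h3
      rw [if_pos rfl, Finset.sum_range_succ (n := β + 1), Nat.sub_self]
      unfold ind
      simp only [if_true, le_refl, mul_one, one_mul]
      push_cast
      ring
    · rw [if_neg h3]
      have : ind (β + 1 = M) = 0 := by unfold ind; rw [if_neg h3]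
      rw [this]
      simp only [mul_zero, zero_mul, Finset.sum_const_zero, Nat.cast_zero, add_zero]
      ring
  rw [Finset.sum_congr rfl h1, Finset.sum_add_distrib, Finset.sum_add_distrib, Finset.sum_ite_eq]
  by_cases h : β + 1 ≤ n
  · rw [if_pos (by rw [mem_Icc]; omega : β + 1 ∈ Icc 1 n), if_pos h, diag]
    have h4 : ∑ x ∈ range (β + 1), (((if x = 0 ∧ n - (β + 1) = 0 then (1 : ℤ) else 0) +
        ∑ i ∈ range (x + 1), A0 (n - (β + 1)) i) + A2 (n - (β + 1)) x) =
        (if n = β + 1 then 1 else 0) + ((∑ i ∈ range (β + 1), ∑ b ∈ range (i + 1), A0 (n - (β + 1)) b) +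
        ∑ b ∈ range (β + 1), A2 (n - (β + 1)) b) := by
      rw [Finset.sum_add_distrib, Finset.sum_add_distrib, add_assoc]
      congr 1
      by_cases h5 : n = β + 1
      · subst h5; simp
      · rw [if_neg h5]
        apply Finset.sum_eq_zero
        intro x _
        rw [if_neg (by omega)]
    rw [h4]
    ring
  · rw [if_neg (by rw [mem_Icc]; omega : β + 1 ∉ Icc 1 n), if_neg h, if_neg (by omega)]
    ring

theorem E2 : PP AY = sq (yy * (geo 1 * (1 + geo 1 * PP AX + PP AW))) +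
      yy * (geo 1 * ((geo qq * C (atq (PP AX + PP AY)) - sq (geo 1 * (PP AX + PP AY))) +
        (C (atq (PP AW + PP AZ')) - sq (PP AW + PP AZ')))) := by
  apply cf_ext
  intro n b
  cases b with
  | zero => rw [cf_PP, cf_add, cf_y_zero, cf_sq, if_pos (Nat.zero_le _), cf_y_zero, AY_zero]; rfl
  | succ β =>
    rw [← Yeq, cf_PP, AY_eq, EE_eq]
    congr 1
    · rw [oY_zero]
      split_ifs <;> first | rfl | omega
    · apply Finset.sum_congr rfl
      intro M hM
      rw [mem_Icc] at hM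
      rw [RR_oY _ _ _ (by omega)]
      congr 2
      unfold AZ'
      rw [if_neg (by omega)]

theorem E2' : PP AW = sq (yy * (geo 1 * (1 + geo 1 * PP AX + PP AY))) +
      yy * (geo 1 * ((geo qq * C (atq (PP AX + PP AW)) - sq (geo 1 * (PP AX + PP AW))) +
        (C (atq (PP AY + PP AZ')) - sq (PP AY + PP AZ')))) := by
  apply cf_ext
  intro n b
  cases b with
  | zero => rw [cf_PP, cf_add, cf_y_zero, cf_sq, if_pos (Nat.zero_le _), cf_y_zero, AW_zero]; rfl
  | succ β =>
    rw [← Yeq, cf_PP, AW_eq, EE_eq]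
    congr 1
    · rw [oW_eq]
      by_cases hn : n = 0
      · subst hn; simp
      · rw [if_neg hn]
        by_cases hn1 : n = 1
        · subst hn1
          rw [show (1 - 1) = 0 from rfl, oY_zero]
          congr 1
          apply propext
          omega
        · rw [oY_pos _ _ _ _ (by omega)]
          congr 1
          apply propext
          omega
    · apply Finset.sum_congr rfl
      intro M hM
      rw [mem_Icc] at hM
      rw [RR_oW _ _ _ (by omega)]
      congr 2
      unfold AZ'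
      rw [if_neg (by omega)]

end

end Pool.Agent.H91R3.DC
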