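import Mathlib

set_option autoImplicit false

namespace Pool.Agent.H91R3.DC

/-- Two cells (given by their centres, points of `ℤ × ℤ`) are adjacent if they differ by `±1` in
exactly one coordinate. -/
def Adj (p q : ℤ × ℤ) : Prop := |p.1 - q.1| + |p.2 - q.2| = 1

/-- `p` and `q` are joined by a path of unit steps with all vertices in `A`. -/
def Conn (A : Finset (ℤ × ℤ)) (p q : ℤ × ℤ) : Prop :=
  Relation.ReflTransGen (fun u v => u ∈ A ∧ v ∈ A ∧ Adj u v) p q

/-- The animal of a polyomino: a nonempty finite set of cells, any two of which are joined by a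
path of unit horizontal and vertical steps inside the set. -/
def IsPolyomino (A : Finset (ℤ × ℤ)) : Prop :=
  A.Nonempty ∧ ∀ p ∈ A, ∀ q ∈ A, Conn A p q

/-- `A` is `d₋`-convex: on every line `x + y = k` the points of `A` are consecutive, i.e. every
lattice point of the line lying between two points of `A` on that line is in `A`. -/
def DiagConvex (A : Finset (ℤ × ℤ)) : Prop :=
  ∀ p ∈ A, ∀ q ∈ A, ∀ r : ℤ × ℤ, p.1 + p.2 = r.1 + r.2 → q.1 + q.2 = r.1 + r.2 →
    p.1 ≤ r.1 → r.1 ≤ q.1 → r ∈ A

/-- The translate of `A` by the vector `v`. -/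
def shift (v : ℤ × ℤ) (A : Finset (ℤ × ℤ)) : Finset (ℤ × ℤ) :=
  A.map (addRightEmbedding v)

/-- The set of translation classes `{B | B is a translate of A}` of `d₋`-convex polyominoes `A`
with `n` cells. -/
def classes (n : ℕ) : Set (Set (Finset (ℤ × ℤ))) :=
  {C | ∃ A, IsPolyomino A ∧ DiagConvex A ∧ A.card = n ∧ C = {B | ∃ v, B = shift v A}}

/-- `numDC n` is the number of `d₋`-convex polyominoes with `n` cells, up to translation. -/
noncomputable def numDC (n : ℕ) : ℕ := (classes n).ncard

end Pool.Agent.H91R3.DC
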