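import Mathlib

set_option autoImplicit false

open Finset

namespace Pool.Agent.H91R3.PHJ

/-- the predicate: the digits at the positions 0, j, 2j, ..., (i-1)j in base p are even and smaller than p-1 -/
def DP (p j : ℕ) : ℕ → ℕ → Prop
  | 0, _ => True
  | i + 1, n => (n % p % 2 = 0 ∧ n % p < p - 1) ∧ DP p j i (n / p ^ j)

instance instDecDP (p j : ℕ) : ∀ i n, Decidable (DP p j i n)
  | 0, _ => isTrue trivial
  | i + 1, n => @instDecidableAnd _ _ _ (instDecDP p j i (n / p ^ j))

theorem DP_succ (p j i n : ℕ) :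
    DP p j (i + 1) n ↔ (n % p % 2 = 0 ∧ n % p < p - 1) ∧ DP p j i (n / p ^ j) := Iff.rfl

theorem pow_mod_cases {p : ℕ} (hp : p.Prime) {k : ℕ} (hk : ¬ p ∣ k) :
    k ^ (p / 2) % p = 1 ∨ k ^ (p / 2) % p = p - 1 := by
  have := Fact.mk hp
  have h0 : (k : ZMod p) ≠ 0 := by
    intro h
    exact hk ((ZMod.natCast_eq_zero_iff k p).1 h)
  have hp1 := hp.one_lt
  rcases ZMod.pow_div_two_eq_neg_one_or_one p h0 with h | h
  · left
    have h1 : ((k ^ (p / 2) : ℕ) : ZMod p) = ((1 : ℕ) : ZMod p) := by
      push_cast; exact h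
    have h2 := (ZMod.natCast_eq_natCast_iff _ _ _).1 h1
    have h3 : k ^ (p / 2) % p = 1 % p := h2
    rw [h3, Nat.mod_eq_of_lt hp1]
  · right
    have h1 : ((k ^ (p / 2) : ℕ) : ZMod p) = ((p - 1 : ℕ) : ZMod p) := by
      rw [Nat.cast_sub hp1.le]
      push_cast; rw [h]; simp
    have h2 := (ZMod.natCast_eq_natCast_iff _ _ _).1 h1
    have h3 : k ^ (p / 2) % p = (p - 1) % p := h2
    rw [h3, Nat.mod_eq_of_lt (by omega)]

theorem digit_move {p n m : ℕ} (hp : 1 < p) (h1 : n % p % 2 = 0 ∧ n % p < p - 1)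
    (hm : m % p = 1 ∨ m % p = p - 1) : ¬ ((n + m) % p % 2 = 0 ∧ (n + m) % p < p - 1) := by
  rintro ⟨h2, h3⟩
  rw [Nat.add_mod] at h2 h3
  have hn : n % p < p := Nat.mod_lt _ (by omega)
  rcases hm with h | h
  · rw [h] at h2 h3
    rw [Nat.mod_eq_of_lt (a := n % p + 1) (by omega)] at h2
    omega
  · rw [h] at h2 h3
    rcases Nat.eq_zero_or_pos (n % p) with h0 | h0
    · rw [h0, Nat.zero_add, Nat.mod_eq_of_lt (by omega)] at h3
      omega
    · have h4 : n % p + (p - 1) = (n % p - 1) + p := by omega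
      rw [h4, Nat.add_mod_right, Nat.mod_eq_of_lt (a := n % p - 1) (b := p) (by omega)] at h2
      omega

theorem DP_move {p : ℕ} (hp : p.Prime) : ∀ (i n k : ℕ), DP p (p / 2) i n → 1 ≤ k → k < p ^ i →
    ¬ DP p (p / 2) i (n + k ^ (p / 2)) := by
  have hp1 := hp.one_lt
  have hj : 0 < p / 2 := by omega
  intro i
  induction i with
  | zero =>
    intro n k _ h1 h2
    simp at h2
    omega
  | succ i ih =>
    intro n k h h1 h2 h3
    rw [DP_succ] at h h3
    by_cases hk : p ∣ k
    · obtain ⟨k', rfl⟩ := hk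
      have e1 : (p * k') ^ (p / 2) = p ^ (p / 2) * k' ^ (p / 2) := mul_pow _ _ _
      rw [e1, Nat.add_mul_div_left _ _ (by positivity)] at h3
      refine ih _ k' h.2 (by
        rcases Nat.eq_zero_or_pos k' with h0 | h0
        · subst h0; omega
        · exact h0) (by
        rw [pow_succ, mul_comm] at h2
        exact Nat.lt_of_mul_lt_mul_right h2) h3.2
    · exact digit_move hp1 h.1 (pow_mod_cases hp hk) h3.1

theorem DP_periodic {p : ℕ} (hp : 0 < p) (j : ℕ) (hj : 0 < j) : ∀ i, Function.Periodic (DP p j i) (p ^ (j * i)) := by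
  intro i
  induction i with
  | zero => intro n; rfl
  | succ i ih =>
    intro n
    rw [eq_iff_iff, DP_succ, DP_succ]
    have e1 : p ^ (j * (i + 1)) = p ^ j * p ^ (j * i) := by rw [← pow_add]; congr 1; ring
    have e2 : (n + p ^ (j * (i + 1))) % p = n % p := by
      have : p ∣ p ^ (j * (i + 1)) := dvd_pow_self p (by positivity)
      obtain ⟨c, hc⟩ := this
      rw [hc, Nat.add_mul_mod_self_left]
    have e3 : (n + p ^ (j * (i + 1))) / p ^ j = n / p ^ j + p ^ (j * i) := by
      rw [e1, Nat.add_mul_div_left _ _ (by positivity)]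
    rw [e2, e3]
    have := ih (n / p ^ j)
    rw [this]

theorem count_even {p : ℕ} (hp : 1 < p) :
    ((Finset.range p).filter (fun n => n % 2 = 0 ∧ n < p - 1)).card = p / 2 := by
  have : (Finset.range p).filter (fun n => n % 2 = 0 ∧ n < p - 1) = (Finset.range (p / 2)).image (fun k => 2 * k) := by
    ext n
    simp only [Finset.mem_filter, Finset.mem_range, Finset.mem_image]
    constructor
    · rintro ⟨h1, h2, h3⟩
      exact ⟨n / 2, by omega, by omega⟩
    · rintro ⟨k, hk, rfl⟩
      refine ⟨by omega, by omega, by omega⟩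
  rw [this, Finset.card_image_of_injective _ (fun a b h => by simpa using h), Finset.card_range]

theorem count_prod {a b : ℕ} (ha : 0 < a) (P Q : ℕ → Prop) [DecidablePred P] [DecidablePred Q] :
    ((Finset.range (a * b)).filter (fun n => P (n % a) ∧ Q (n / a))).card =
      ((Finset.range a).filter P).card * ((Finset.range b).filter Q).card := by
  rw [← Finset.card_product]
  refine Finset.card_nbij' (fun n => (n % a, n / a)) (fun x => x.1 + a * x.2) ?_ ?_ ?_ ?_
  · intro n hn
    simp only [Finset.coe_filter, Finset.mem_range, Set.mem_ofPred_eq] at hn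
    simp only [Finset.coe_product, Set.mem_prod, Finset.coe_filter, Finset.mem_range, Set.mem_ofPred_eq]
    exact ⟨⟨Nat.mod_lt _ ha, hn.2.1⟩, ⟨Nat.div_lt_of_lt_mul hn.1, hn.2.2⟩⟩
  · rintro ⟨x, y⟩ hx
    simp only [Finset.coe_product, Set.mem_prod, Finset.coe_filter, Finset.mem_range, Set.mem_ofPred_eq] at hx
    simp only [Finset.coe_filter, Finset.mem_range, Set.mem_ofPred_eq]
    have e1 : (x + a * y) % a = x := by
      rw [Nat.add_mul_mod_self_left, Nat.mod_eq_of_lt hx.1.1]
    have e2 : (x + a * y) / a = y := by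
      rw [Nat.add_mul_div_left _ _ ha, Nat.div_eq_of_lt hx.1.1, Nat.zero_add]
    rw [e1, e2]
    refine ⟨?_, hx.1.2, hx.2.2⟩
    have h1 := hx.1.1
    have h2 := hx.2.1
    calc x + a * y < a + a * y := by omega
      _ = a * (y + 1) := by ring
      _ ≤ a * b := Nat.mul_le_mul_left a h2
  · intro n _
    exact Nat.mod_add_div n a
  · rintro ⟨x, y⟩ hx
    simp only [Finset.coe_product, Set.mem_prod, Finset.coe_filter, Finset.mem_range, Set.mem_ofPred_eq] at hx
    have e1 : (x + a * y) % a = x := by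
      rw [Nat.add_mul_mod_self_left, Nat.mod_eq_of_lt hx.1.1]
    have e2 : (x + a * y) / a = y := by
      rw [Nat.add_mul_div_left _ _ ha, Nat.div_eq_of_lt hx.1.1, Nat.zero_add]
    simp only [e1, e2]

theorem DP_count {p : ℕ} (hp : 1 < p) (j : ℕ) : ∀ i,
    ((Finset.range (p ^ ((j + 1) * i))).filter (DP p (j + 1) i)).card = (p ^ j * (p / 2)) ^ i := by
  intro i
  induction i with
  | zero => simp [DP]
  | succ i ih =>
    have e1 : p ^ ((j + 1) * (i + 1)) = p ^ (j + 1) * p ^ ((j + 1) * i) := by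
      rw [← pow_add]; congr 1; ring
    have e2 : (Finset.range (p ^ ((j + 1) * (i + 1)))).filter (DP p (j + 1) (i + 1)) =
        (Finset.range (p ^ (j + 1) * p ^ ((j + 1) * i))).filter
          (fun n => (fun m => m % p % 2 = 0 ∧ m % p < p - 1) (n % p ^ (j + 1)) ∧ (DP p (j + 1) i) (n / p ^ (j + 1))) := by
      rw [e1]
      apply Finset.filter_congr
      intro n _
      rw [DP_succ]
      have : n % p ^ (j + 1) % p = n % p := Nat.mod_mod_of_dvd n (dvd_pow_self p (by omega))
      simp only [this]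
    rw [e2, count_prod (a := p ^ (j + 1)) (b := p ^ ((j + 1) * i)) (by positivity)
      (fun m => m % p % 2 = 0 ∧ m % p < p - 1) (DP p (j + 1) i), ih, pow_succ (p ^ j * (p / 2)) i, mul_comm]
    congr 1
    -- count of m < p^(j+1) with m % p good
    have e3 : (Finset.range (p ^ (j + 1))).filter (fun m => m % p % 2 = 0 ∧ m % p < p - 1) =
        (Finset.range (p * p ^ j)).filter
          (fun n => (fun m => m % 2 = 0 ∧ m < p - 1) (n % p) ∧ (fun _ => True) (n / p)) := by
      rw [pow_succ, mul_comm]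
      apply Finset.filter_congr
      intro n _
      simp
    rw [e3, count_prod (a := p) (b := p ^ j) (by omega)
      (fun m => m % 2 = 0 ∧ m < p - 1) (fun _ => True), count_even hp]
    simp [mul_comm]

end Pool.Agent.H91R3.PHJ
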