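import Pool.Agent.H91R3.PHJLower

set_option autoImplicit false

open Finset

namespace Pool.Agent.H91R3.PHJ

/-- the diagonal-type embedding of `[N]^j` into `[N]^d` (repeat the last coordinate) -/
def iota {N : ℕ} (d j : ℕ) (hj : 0 < j) (y : Fin j → Fin N) : Fin d → Fin N :=
  fun i => y ⟨min i.1 (j - 1), by omega⟩

theorem iota_mem_cube {N d j : ℕ} (hj : 0 < j) (hjd : j ≤ d) (γ : Finset (Fin N)) (y : Fin j → Fin N) :
    iota d j hj y ∈ Fintype.piFinset (fun _ : Fin d => γ) ↔ y ∈ Fintype.piFinset (fun _ : Fin j => γ) := by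
  simp only [Fintype.mem_piFinset, iota]
  constructor
  · intro h a
    have h1 := h ⟨a.1, by omega⟩
    have h2 : (⟨min a.1 (j - 1), by omega⟩ : Fin j) = a := by
      apply Fin.ext
      simp only
      omega
    simp only [h2] at h1
    exact h1
  · intro h a
    exact h _

/-- the counting functional -/
def X {N : ℕ} (d j : ℕ) (hj : 0 < j) (A : Finset (Fin d → Fin N)) : ℕ :=
  ((Finset.univ : Finset (Fin j → Fin N)).filter (fun y => iota d j hj y ∈ A)).card

theorem X_union {N d j : ℕ} (hj : 0 < j) (hjd : j ≤ d) (A : Finset (Fin d → Fin N)) (γ : Finset (Fin N))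
    (h : Disjoint A (Fintype.piFinset (fun _ : Fin d => γ))) :
    X d j hj (A ∪ Fintype.piFinset (fun _ : Fin d => γ)) = X d j hj A + γ.card ^ j := by
  classical
  unfold X
  have e1 : (Finset.univ : Finset (Fin j → Fin N)).filter
      (fun y => iota d j hj y ∈ A ∪ Fintype.piFinset (fun _ : Fin d => γ)) =
      (Finset.univ : Finset (Fin j → Fin N)).filter (fun y => iota d j hj y ∈ A) ∪
        Fintype.piFinset (fun _ : Fin j => γ) := by
    ext y
    simp only [Finset.mem_filter, Finset.mem_univ, true_and, Finset.mem_union]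
    rw [iota_mem_cube hj hjd]
  rw [e1, Finset.card_union_of_disjoint, Fintype.card_piFinset_const]
  rw [Finset.disjoint_left]
  intro y hy1 hy2
  simp only [Finset.mem_filter, Finset.mem_univ, true_and] at hy1
  rw [← iota_mem_cube hj hjd] at hy2
  exact (Finset.disjoint_left.1 h) hy1 hy2

/-- the sets containing a point of every `γ^d` with `|γ| = L` -/
def Typ (d N L : ℕ) : Finset (Finset (Fin d → Fin N)) :=
  Finset.univ.filter (fun A => ∀ γ : Finset (Fin N), γ.card = L →
    ¬ Disjoint A (Fintype.piFinset (fun _ : Fin d => γ)))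

theorem card_disjoint {d N : ℕ} (C : Finset (Fin d → Fin N)) :
    ((Finset.univ : Finset (Finset (Fin d → Fin N))).filter (fun A => Disjoint A C)).card * 2 ^ C.card =
      2 ^ (N ^ d) := by
  classical
  have e1 : (Finset.univ : Finset (Finset (Fin d → Fin N))).filter (fun A => Disjoint A C) = Cᶜ.powerset := by
    ext A
    simp only [Finset.mem_filter, Finset.mem_univ, true_and, Finset.mem_powerset]
    rw [Finset.subset_compl_iff_disjoint_right]
  rw [e1, Finset.card_powerset, ← pow_add, Finset.card_compl_add_card]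
  simp

theorem card_Typ_compl (d N L : ℕ) :
    (((Typ d N L)ᶜ).card : ℝ) ≤ (N : ℝ) ^ L / 2 ^ (L ^ d) * 2 ^ (N ^ d) := by
  classical
  have hsub : (Typ d N L)ᶜ ⊆ (Finset.powersetCard L (Finset.univ : Finset (Fin N))).biUnion
      (fun γ => (Finset.univ : Finset (Finset (Fin d → Fin N))).filter
        (fun A => Disjoint A (Fintype.piFinset (fun _ : Fin d => γ)))) := by
    intro A hA
    simp only [Typ, Finset.mem_compl, Finset.mem_filter, Finset.mem_univ, true_and, not_forall,
      not_not] at hA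
    obtain ⟨γ, h1, h2⟩ := hA
    simp only [Finset.mem_biUnion, Finset.mem_filter, Finset.mem_univ, true_and]
    exact ⟨γ, Finset.mem_powersetCard.2 ⟨Finset.subset_univ _, h1⟩, h2⟩
  have h1 : (((Typ d N L)ᶜ).card : ℝ) ≤ ∑ γ ∈ Finset.powersetCard L (Finset.univ : Finset (Fin N)),
      ((((Finset.univ : Finset (Finset (Fin d → Fin N))).filter
        (fun A => Disjoint A (Fintype.piFinset (fun _ : Fin d => γ)))).card : ℕ) : ℝ) := by
    calc (((Typ d N L)ᶜ).card : ℝ) ≤ (((Finset.powersetCard L (Finset.univ : Finset (Fin N))).biUnion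
      (fun γ => (Finset.univ : Finset (Finset (Fin d → Fin N))).filter
        (fun A => Disjoint A (Fintype.piFinset (fun _ : Fin d => γ))))).card : ℝ) := by
          exact_mod_cast Finset.card_le_card hsub
      _ ≤ _ := by exact_mod_cast Finset.card_biUnion_le
  have h2 : ∀ γ ∈ Finset.powersetCard L (Finset.univ : Finset (Fin N)),
      ((((Finset.univ : Finset (Finset (Fin d → Fin N))).filter
        (fun A => Disjoint A (Fintype.piFinset (fun _ : Fin d => γ)))).card : ℕ) : ℝ) ≤
        2 ^ (N ^ d) / 2 ^ (L ^ d) := by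
    intro γ hγ
    have h3 := card_disjoint (d := d) (Fintype.piFinset (fun _ : Fin d => γ))
    rw [Fintype.card_piFinset_const, Finset.mem_powersetCard.1 hγ |>.2] at h3
    rw [le_div_iff₀ (by positivity)]
    have h4 : ((((Finset.univ : Finset (Finset (Fin d → Fin N))).filter
        (fun A => Disjoint A (Fintype.piFinset (fun _ : Fin d => γ)))).card : ℕ) : ℝ) * 2 ^ (L ^ d)
        = 2 ^ (N ^ d) := by exact_mod_cast h3
    exact h4.le
  calc (((Typ d N L)ᶜ).card : ℝ) ≤ _ := h1
    _ ≤ ∑ _γ ∈ Finset.powersetCard L (Finset.univ : Finset (Fin N)), (2 : ℝ) ^ (N ^ d) / 2 ^ (L ^ d) :=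
        Finset.sum_le_sum h2
    _ = (N.choose L : ℝ) * (2 ^ (N ^ d) / 2 ^ (L ^ d)) := by simp
    _ ≤ (N : ℝ) ^ L * (2 ^ (N ^ d) / 2 ^ (L ^ d)) := by
        apply mul_le_mul_of_nonneg_right _ (by positivity)
        exact_mod_cast Nat.choose_le_pow N L
    _ = (N : ℝ) ^ L / 2 ^ (L ^ d) * 2 ^ (N ^ d) := by ring

theorem card_Typ (d N L : ℕ) :
    (1 - (N : ℝ) ^ L / 2 ^ (L ^ d)) * 2 ^ (N ^ d) ≤ ((Typ d N L).card : ℝ) := by
  have h1 := card_Typ_compl d N L
  have h2 : ((Typ d N L).card : ℝ) + ((Typ d N L)ᶜ.card : ℝ) = 2 ^ (N ^ d) := by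
    have := Finset.card_add_card_compl (Typ d N L)
    have h3 : Fintype.card (Finset (Fin d → Fin N)) = 2 ^ (N ^ d) := by simp
    rw [h3] at this
    exact_mod_cast this
  nlinarith

/-- A family is good. -/
def Good {d N : ℕ} (S : Finset (Finset (Fin d → Fin N))) : Prop :=
  ∃ A ∈ S, ∃ γ : Finset (Fin N), γ.Nonempty ∧
    Disjoint A (Fintype.piFinset (fun _ : Fin d => γ)) ∧
    A ∪ Fintype.piFinset (fun _ : Fin d => γ) ∈ S

theorem not_good {d N p i : ℕ} (hp : p.Prime) (hj : 0 < p / 2) (hjd : p / 2 ≤ d) (c : ℕ)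
    (S : Finset (Finset (Fin d → Fin N)))
    (hS : ∀ A ∈ S, A ∈ Typ d N (p ^ i) ∧ DP p (p / 2) i (X d (p / 2) hj A + c)) : ¬ Good S := by
  classical
  rintro ⟨A, hA, γ, hγ, hd, hU⟩
  obtain ⟨hT, hX⟩ := hS A hA
  obtain ⟨_, hX'⟩ := hS _ hU
  rw [X_union hj hjd A γ hd] at hX'
  by_cases hc : γ.card < p ^ i
  · have := DP_move hp i (X d (p / 2) hj A + c) γ.card hX (Finset.card_pos.2 hγ) hc
    apply this
    have e : X d (p / 2) hj A + c + γ.card ^ (p / 2) = X d (p / 2) hj A + γ.card ^ (p / 2) + c := by ring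
    rw [e]
    exact hX'
  · push Not at hc
    obtain ⟨γ', h1, h2⟩ := Finset.exists_subset_card_eq hc
    simp only [Typ, Finset.mem_filter, Finset.mem_univ, true_and] at hT
    apply hT γ' h2
    refine Finset.disjoint_of_subset_right ?_ hd
    exact Fintype.piFinset_subset _ _ (fun _ => h1)

theorem lower {d p i N : ℕ} (hp : p.Prime) (hpd : p ≤ 2 * d + 1) :
    ∃ S : Finset (Finset (Fin d → Fin N)), ¬ Good S ∧
      (((p / 2 : ℕ) : ℝ) / p) ^ i * ((1 - (N : ℝ) ^ (p ^ i) / 2 ^ ((p ^ i) ^ d)) * 2 ^ (N ^ d)) ≤ (S.card : ℝ) := by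
  classical
  have hp1 := hp.one_lt
  have hj : 0 < p / 2 := by omega
  have hjd : p / 2 ≤ d := by omega
  set j := p / 2 with hjdef
  set M := p ^ (j * i) with hM
  have hM0 : 0 < M := by positivity
  let F : ℕ → Finset (Finset (Fin d → Fin N)) := fun c =>
    (Typ d N (p ^ i)).filter (fun A => DP p j i (X d j hj A + c))
  have hcount : ∀ x : ℕ, ((Finset.range M).filter (fun c => DP p j i (x + c))).card = (p ^ (j - 1) * j) ^ i := by
    intro x
    have h1 := Nat.filter_Ico_card_eq_of_periodic x M (DP p j i) (DP_periodic (by omega) j hj i)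
    have h2 := DP_count hp1 (j - 1) i
    rw [Nat.sub_add_cancel hj, ← hM, ← hjdef] at h2
    rw [← h2, ← Nat.count_eq_card_filter_range (DP p j i) M, ← h1]
    refine Finset.card_nbij' (fun c => x + c) (fun c => c - x) ?_ ?_ ?_ ?_
    · intro c hc
      simp only [Finset.coe_filter, Finset.mem_range, Finset.mem_Ico, Set.mem_ofPred_eq] at hc ⊢
      exact ⟨by omega, hc.2⟩
    · intro c hc
      simp only [Finset.coe_filter, Finset.mem_range, Finset.mem_Ico, Set.mem_ofPred_eq] at hc ⊢
      refine ⟨by omega, ?_⟩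
      rw [Nat.add_sub_of_le hc.1.1]
      exact hc.2
    · intro c _
      simp
    · intro c hc
      simp only [Finset.coe_filter, Finset.mem_Ico, Set.mem_ofPred_eq] at hc
      simp only
      omega
  have hsum : ∑ c ∈ Finset.range M, (F c).card = (Typ d N (p ^ i)).card * (p ^ (j - 1) * j) ^ i := by
    have h1 : ∀ c, (F c).card = ∑ A ∈ Typ d N (p ^ i), if DP p j i (X d j hj A + c) then 1 else 0 := by
      intro c
      rw [Finset.card_filter]
    simp only [h1]
    rw [Finset.sum_comm]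
    have h2 : ∀ A ∈ Typ d N (p ^ i), (∑ c ∈ Finset.range M, if DP p j i (X d j hj A + c) then 1 else 0) =
        (p ^ (j - 1) * j) ^ i := by
      intro A _
      rw [← Finset.card_filter, hcount]
    rw [Finset.sum_congr rfl h2]
    simp
  obtain ⟨c, hc, hle⟩ : ∃ c ∈ Finset.range M,
      (Typ d N (p ^ i)).card * (p ^ (j - 1) * j) ^ i ≤ M * (F c).card := by
    by_contra hcon
    push Not at hcon
    have h1 : ∑ c ∈ Finset.range M, M * (F c).card <
        ∑ _c ∈ Finset.range M, (Typ d N (p ^ i)).card * (p ^ (j - 1) * j) ^ i :=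
      Finset.sum_lt_sum_of_nonempty (by simpa using hM0.ne') hcon
    rw [← Finset.mul_sum, hsum] at h1
    simp at h1
  refine ⟨F c, ?_, ?_⟩
  · apply not_good hp hj hjd c
    intro A hA
    simpa [F] using hA
  · have h1 := card_Typ d N (p ^ i)
    have hpR : (0 : ℝ) < p := by exact_mod_cast hp.pos
    have h2 : ((j : ℝ) / p) ^ i * ((Typ d N (p ^ i)).card : ℝ) ≤ (F c).card := by
      have h3 : ((Typ d N (p ^ i)).card : ℝ) * ((p : ℝ) ^ (j - 1) * j) ^ i ≤ (p : ℝ) ^ (j * i) * (F c).card := by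
        have := hle
        rw [hM] at this
        exact_mod_cast this
      have h4 : (p : ℝ) ^ (j * i) = ((p : ℝ) ^ (j - 1) * p) ^ i := by
        rw [← pow_succ, Nat.sub_add_cancel hj, pow_mul]
      rw [h4] at h3
      have h5 : ((j : ℝ) / p) ^ i = ((p : ℝ) ^ (j - 1) * j) ^ i / ((p : ℝ) ^ (j - 1) * p) ^ i := by
        rw [← div_pow]
        congr 1
        field_simp
      rw [h5, div_mul_eq_mul_div, div_le_iff₀ (by positivity)]
      linarith
    calc ((j : ℝ) / p) ^ i * ((1 - (N : ℝ) ^ (p ^ i) / 2 ^ ((p ^ i) ^ d)) * 2 ^ (N ^ d)) ≤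
        ((j : ℝ) / p) ^ i * ((Typ d N (p ^ i)).card : ℝ) :=
          mul_le_mul_of_nonneg_left h1 (by positivity)
      _ ≤ _ := h2

end Pool.Agent.H91R3.PHJ
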